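import Pool.Agent.Lib.MP_938ce2_ag_sc.Cover

/-!
Tate characters of general cyclic covers of the line: the two theorems.
-/

set_option autoImplicit false
set_option linter.unusedSectionVars false

open Finset

namespace Pool.Agent.Lib.MP_938ce2_ag_sc

open Pool.Agent.Lib.MP_938ce2_ag_h99
open Pool.Agent.Lib.MP_938ce2_ag_h6 (oddPart oddPart_add oddPart_zero oddPart_odd od
  oddPart_singleton sum_oddPart_mul oddPart_lift_apply oddPart_lift_of_forall_ne od_odd)

variable {m M : ℕ} [NeZero m] [NeZero M]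

lemma jj_mul_natCast (hf : m ∣ M) {c : ZMod m} {l : ℕ} (h : (l : ZMod m) = c) (a : ZMod m) :
    jj hf (a * c) = (l : ZMod M) * jj hf a := by
  rw [natCast_mul_jj, h, mul_comm]

lemma push_neg_left (x : ZMod m) {F : ZMod m → ℤ} (hF : OddF F) : push (-x) F = - push x F := by
  funext b
  simp only [Pi.neg_apply]
  unfold push
  rw [← sum_neg_distrib]
  refine sum_bij' (fun a _ => -a) (fun a _ => -a) ?_ ?_ ?_ ?_ ?_
  · intro a ha
    rw [mem_filter] at ha ⊢
    exact ⟨mem_univ _, by rw [mul_neg, ← neg_mul, ha.2]⟩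
  · intro a ha
    rw [mem_filter] at ha ⊢
    exact ⟨mem_univ _, by rw [neg_mul_neg, ha.2]⟩
  · intro a _; exact neg_neg a
  · intro a _; exact neg_neg a
  · intro a _
    rw [hF, neg_neg]

/-- `n - 1` a prime power and all exponents but one equal to one -/
theorem weil_pow {n : ℕ} (b : Fin n → ZMod m) (j : Fin n) (hb : ∀ i, i ≠ j → b i = 1)
    (hsum : ∑ i, b i = 0) {p k : ℕ} (hp : p.Prime) (hn : n = p ^ k + 1) (hev : Even n)
    (hf : m ∣ M) (hpM : p ∣ M) (T : Multiset (ZMod m)) (hT : TateF (oddPart (weil b T))) :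
    oddPart ((weil b T).map (jj hf)) ∈ relSub M := by
  classical
  have hcard : ((univ : Finset (Fin n)).erase j).card = p ^ k := by
    rw [card_erase_of_mem (mem_univ j), card_univ, Fintype.card_fin, hn]
    rfl
  have hbj : b j = -((p ^ k : ℕ) : ZMod m) := by
    have h1 : ∑ i ∈ univ.erase j, b i = ((p ^ k : ℕ) : ZMod m) := by
      rw [sum_congr rfl fun i hi => hb i (ne_of_mem_erase hi), sum_const, hcard, nsmul_eq_mul,
        mul_one]
    have h2 := add_sum_erase univ b (mem_univ j)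
    rw [hsum, h1] at h2
    linear_combination h2
  set z := oddPart (T.map (jj hf)) with hz
  have hzo : OddF z := oddPart_odd _
  set β : Fin n → ZMod M := fun i => if i = j then -((p ^ k : ℕ) : ZMod M) else 1 with hβd
  have hβ : ∀ i a, jj hf (a * b i) = β i * jj hf a := by
    intro i a
    by_cases hij : i = j
    · rw [hβd]
      simp only [hij, if_true]
      rw [hbj, mul_neg, map_neg, neg_mul, jj_mul_natCast hf rfl]
    · rw [hβd]
      simp only [hij, if_false]
      rw [hb i hij, mul_one, one_mul]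
  have h1 := oddPart_weil_lift hf b β hβ T
  have h2 : ∑ i, push (β i) z = ((p ^ k : ℕ) : ℤ) • z - push ((p ^ k : ℕ) : ZMod M) z := by
    rw [← add_sum_erase univ (fun i => push (β i) z) (mem_univ j)]
    have h3 : ∑ i ∈ univ.erase j, push (β i) z = ((p ^ k : ℕ) : ℤ) • z := by
      rw [sum_congr rfl (g := fun _ => z) fun i hi => by
        rw [hβd]
        simp only [ne_of_mem_erase hi, if_false]
        exact push_one z, sum_const, hcard, natCast_zsmul]
    rw [h3, hβd]
    simp only [if_true]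
    rw [push_neg_left _ hzo]
    abel
  rw [h1, h2]
  have hT' := tate_lift hf hT
  rw [h1, h2] at hT'
  rcases Nat.eq_zero_or_pos k with hk | hk
  · rw [hk, pow_zero, Nat.cast_one, Nat.cast_one, one_smul, push_one, sub_self]
    exact AddSubgroup.zero_mem _
  · have hp2 : p ≠ 2 := by
      rintro rfl
      rw [hn] at hev
      have h4 : Even (2 ^ k) := (Nat.even_pow' hk.ne').mpr even_two
      exact (Nat.not_even_iff_odd.mpr h4.add_one) hev
    exact core_pow hp hp2 hpM k hzo hT'

lemma card_sum_odd {ι : Type*} (s : Finset ι) (f : ι → ℕ) (h : ∀ i ∈ s, Odd (f i)) :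
    Odd (∑ i ∈ s, f i) ↔ Odd s.card := by
  classical
  induction s using Finset.induction_on with
  | empty => simp
  | insert i s hi ih =>
    rw [sum_insert hi, card_insert_of_notMem hi, Nat.odd_add, Nat.odd_add_one]
    have h1 := h i (mem_insert_self i s)
    have h2 := ih fun x hx => h x (mem_insert_of_mem hx)
    rw [← Nat.not_odd_iff_even, h2]
    exact ⟨fun h3 => h3.mp h1, fun h3 => ⟨fun _ => h3, fun _ => h1⟩⟩

/-- multiplication by primes prime to `m` -/
lemma core_unit {l : ℕ} (hf : m ∣ M) (hl : l.Prime) (hl2 : l ≠ 2) (hlM : l ∣ M)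
    (hlm : IsUnit (l : ZMod m)) {F : ZMod M → ℤ} (ho : OddF F) (hT : TateF F)
    (hs : ∀ a, F a ≠ 0 → addOrderOf a ∣ m) : (l : ℤ) • F - push (l : ZMod M) F ∈ relSub M :=
  core_coprime hf l (hl.odd_of_ne_two hl2) hlM ((ZMod.isUnit_iff_coprime l m).mp hlm) ho hT hs

lemma sum_mem_sub {ι : Type*} (s : Finset ι) (l : ι → ℕ) {F : ZMod M → ℤ}
    (h : ∀ i ∈ s, (l i : ℤ) • F - push (l i : ZMod M) F ∈ relSub M) :
    ((∑ i ∈ s, l i : ℕ) : ℤ) • F - ∑ i ∈ s, push (l i : ZMod M) F ∈ relSub M := by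
  have h1 := (relSub M).sum_mem h
  rw [sum_sub_distrib, ← sum_smul] at h1
  rw [Nat.cast_sum]
  exact h1

lemma push_comm (x y : ZMod M) (F : ZMod M → ℤ) : push x (push y F) = push y (push x F) := by
  rw [push_comp, push_comp, mul_comm]

lemma order_push {F : ZMod M → ℤ} {f : ℕ} (hs : ∀ a, F a ≠ 0 → addOrderOf a ∣ f) (x : ZMod M)
    {a : ZMod M} (ha : push x F a ≠ 0) : addOrderOf a ∣ f := by
  obtain ⟨c, hc, hF⟩ := push_ne_zero ha
  have h1 := hs c hF
  rw [addOrderOf_dvd_iff_nsmul_eq_zero, nsmul_eq_mul] at h1 ⊢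
  rw [← hc]
  linear_combination x * h1

lemma order_sum {ι : Type*} (s : Finset ι) {F : ι → ZMod M → ℤ} {f : ℕ}
    (hs : ∀ i ∈ s, ∀ a, F i a ≠ 0 → addOrderOf a ∣ f) {a : ZMod M} (ha : (∑ i ∈ s, F i) a ≠ 0) :
    addOrderOf a ∣ f := by
  rw [Finset.sum_apply] at ha
  obtain ⟨i, hi, h⟩ := exists_ne_zero_of_sum_ne_zero ha
  exact hs i hi a h

lemma odd_sum {ι : Type*} (s : Finset ι) {F : ι → ZMod M → ℤ} (hs : ∀ i ∈ s, OddF (F i)) :
    OddF (∑ i ∈ s, F i) := by
  intro a
  rw [Finset.sum_apply, Finset.sum_apply, ← sum_neg_distrib]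
  exact sum_congr rfl fun i hi => hs i hi a

/-- all exponents units -/
theorem weil_units {n : ℕ} (b : Fin n → ZMod m) (hb : ∀ i, IsUnit (b i)) (hsum : ∑ i, b i = 0)
    (hev : Even n) (hχ : ∀ χ : DirichletCharacter ℂ m, χ.Odd → (∃ k : ℕ, χ ^ 2 ^ k = 1) →
      ∑ i, χ (b i) ≠ 0) :
    ∃ N : ℕ, 0 < N ∧ ∀ (M : ℕ) [NeZero M] (hf : m ∣ M), N ∣ M → ∀ T : Multiset (ZMod m),
      TateF (oddPart (weil b T)) → oddPart ((weil b T).map (jj hf)) ∈ relSub M := by
  classical
  rcases Nat.eq_zero_or_pos n with hn0 | hn0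
  · subst hn0
    refine ⟨1, one_pos, fun M _ hf _ T _ => ?_⟩
    rw [oddPart_weil_lift hf b (fun _ => 0) (fun i => i.elim0) T, univ_eq_empty, sum_empty]
    exact AddSubgroup.zero_mem _
  choose β hβ using hb
  -- primes in the classes of the units
  have hex : ∀ u : (ZMod m)ˣ, ∃ l : ℕ, l.Prime ∧ l ≠ 2 ∧ (l : ZMod m) = u := by
    intro u
    obtain ⟨l, h1, h2, h3⟩ := Nat.forall_exists_prime_gt_and_eq_mod u.isUnit 2
    exact ⟨l, h2, by omega, h3⟩
  choose L hL1 hL2 hL3 using hex
  set d := ∑ i, L (β i) with hd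
  have hdpos : d ≠ 0 := by
    have h1 : L (β ⟨0, hn0⟩) ≤ d := single_le_sum (f := fun i => L (β i)) (fun _ _ => Nat.zero_le _)
      (mem_univ _)
    have h2 := (hL1 (β ⟨0, hn0⟩)).pos
    omega
  have hdev : Even d := by
    rw [← Nat.not_odd_iff_even, hd, card_sum_odd univ _ fun i _ => (hL1 _).odd_of_ne_two (hL2 _),
      card_univ, Fintype.card_fin, Nat.not_odd_iff_even]
    exact hev
  have hmd : m ∣ d := by
    rw [← ZMod.natCast_eq_zero_iff, hd, Nat.cast_sum, ← hsum]
    exact sum_congr rfl fun i _ => by rw [hL3, hβ]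
  obtain ⟨l1, l2, q1, q2, q3, q4, q5, q6, q7⟩ := exists_two_primes hdev hdpos
  refine ⟨l1 * l2 * ∏ u : (ZMod m)ˣ, L u, ?_, ?_⟩
  · exact Nat.mul_pos (Nat.mul_pos q1.pos q2.pos) (prod_pos fun u _ => (hL1 u).pos)
  intro M _ hf hN T hT
  have hl1M : l1 ∣ M := (Dvd.intro (l2 * ∏ u : (ZMod m)ˣ, L u) (by ring)).trans hN
  have hl2M : l2 ∣ M := (Dvd.intro (l1 * ∏ u : (ZMod m)ˣ, L u) (by ring)).trans hN
  have hLM : ∀ u, L u ∣ M := fun u =>
    ((dvd_prod_of_mem L (mem_univ u)).trans (Dvd.intro_left _ rfl)).trans hN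
  have hcu : ∀ (u : (ZMod m)ˣ) {F : ZMod M → ℤ}, OddF F → TateF F →
      (∀ a, F a ≠ 0 → addOrderOf a ∣ m) → (L u : ℤ) • F - push (L u : ZMod M) F ∈ relSub M :=
    fun u F ho h1 h2 => core_unit hf (hL1 u) (hL2 u) (hLM u) (by rw [hL3]; exact u.isUnit) ho h1 h2
  -- the function at level `m`
  set y := oddPart T with hy
  have hyo : OddF y := oddPart_odd _
  set X : (ZMod m)ˣ → ℤ := fun t => ∑ a, y a * ((((t : ZMod m) * a).val : ℕ) : ℤ) with hX
  have hXo : ∀ t, X ((-1) * t) = - X t := by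
    intro t
    simp only [hX]
    rw [← sum_neg_distrib]
    refine Fintype.sum_equiv (Equiv.neg _) _ _ fun a => ?_
    rw [Equiv.neg_apply, hyo, neg_one_mul, Units.val_neg, neg_mul, mul_neg]
    ring
  have hX0 : ∀ t, ∑ i, X (β i * t) = 0 := by
    intro t
    have h1 := hT t
    rw [oddPart_weil] at h1
    simp only [Finset.sum_apply, sum_mul] at h1
    rw [sum_comm] at h1
    rw [← h1]
    refine sum_congr rfl fun i _ => ?_
    rw [sum_push (b i) (oddPart T) fun a => ((((t : ZMod m) * a).val : ℕ) : ℤ)]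
    simp only [hX]
    refine sum_congr rfl fun a _ => ?_
    rw [Units.val_mul, hβ, mul_assoc, mul_left_comm]
  obtain ⟨H, hHodd, hH0⟩ := avg β hXo hX0 (fun χ h1 h2 => by
    have h3 := hχ χ h1 h2
    have h4 : ∑ i, χ (β i : ZMod m) = ∑ i, χ (b i) := sum_congr rfl fun i _ => by rw [hβ]
    rw [h4]
    exact h3)
  -- the averaged multiset
  set T' : Multiset (ZMod m) := ∑ u ∈ H, T.map fun c => (u : ZMod m) * c with hT'
  have hoT' : oddPart T' = ∑ u ∈ H, push (u : ZMod m) y := by
    have key : ∀ s : Finset (ZMod m)ˣ, oddPart (∑ u ∈ s, T.map fun c => (u : ZMod m) * c)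
        = ∑ u ∈ s, push (u : ZMod m) y := by
      intro s
      induction s using Finset.induction_on with
      | empty => rw [sum_empty, sum_empty, oddPart_zero]
      | insert u s hu ih => rw [sum_insert hu, sum_insert hu, oddPart_add, ih, oddPart_map_mul]
    exact key H
  have hTT' : TateF (oddPart T') := by
    intro t
    rw [hoT']
    simp only [Finset.sum_apply, sum_mul]
    rw [sum_comm, ← hH0 t]
    refine sum_congr rfl fun u _ => ?_
    rw [sum_push (u : ZMod m) y fun a => ((((t : ZMod m) * a).val : ℕ) : ℤ)]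
    simp only [hX]
    refine sum_congr rfl fun a _ => ?_
    rw [Units.val_mul, mul_assoc, mul_left_comm]
  -- level `M`
  set z := oddPart (T.map (jj hf)) with hz
  have hzo : OddF z := oddPart_odd _
  have hzs : ∀ a, z a ≠ 0 → addOrderOf a ∣ m := fun a ha => order_lift hf T ha
  set F := oddPart ((weil b T).map (jj hf)) with hF
  have hFz : F = ∑ i, push (L (β i) : ZMod M) z :=
    oddPart_weil_lift hf b (fun i => (L (β i) : ZMod M)) (fun i a =>
      jj_mul_natCast hf (by rw [hL3, hβ]) a) T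
  have hFo : OddF F := oddPart_odd _
  have hFT : TateF F := tate_lift hf hT
  have hFs : ∀ a, F a ≠ 0 → addOrderOf a ∣ m := fun a ha => order_lift hf _ ha
  set z' := oddPart (T'.map (jj hf)) with hz'
  have hz'z : z' = ∑ u ∈ H, push (L u : ZMod M) z := by
    have key : ∀ s : Finset (ZMod m)ˣ,
        oddPart ((∑ u ∈ s, T.map fun c => (u : ZMod m) * c).map (jj hf))
        = ∑ u ∈ s, push (L u : ZMod M) z := by
      intro s
      induction s using Finset.induction_on with
      | empty => rw [sum_empty, sum_empty, Multiset.map_zero, oddPart_zero]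
      | insert u s hu ih =>
        rw [sum_insert hu, sum_insert hu, Multiset.map_add, oddPart_add, ih]
        congr 1
        rw [hz, ← oddPart_map_mul, Multiset.map_map, Multiset.map_map]
        congr 1
        apply Multiset.map_congr rfl
        intro c _
        rw [Function.comp_apply, Function.comp_apply, mul_comm, jj_mul_natCast hf (hL3 u)]
    exact key H
  have hz'o : OddF z' := oddPart_odd _
  have hz'T : TateF z' := tate_lift hf hTT'
  have hz's : ∀ a, z' a ≠ 0 → addOrderOf a ∣ m := fun a ha => order_lift hf _ ha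
  have e1 : ∑ u ∈ H, push (L u : ZMod M) F = ∑ i, push (L (β i) : ZMod M) z' := by
    rw [hFz, hz'z]
    simp only [push_sum_left]
    rw [sum_comm]
    refine sum_congr rfl fun i _ => sum_congr rfl fun u _ => ?_
    exact push_comm _ _ _
  have e2 : (d : ℤ) • z' ∈ relSub M :=
    core_even hf hmd q1 q2 q3 q4 hl1M hl2M q5 q6 q7 hz'o hz'T hz's
  have e3 := sum_mem_sub univ (fun i => L (β i)) (F := z') fun i _ => hcu (β i) hz'o hz'T hz's
  have e4 := sum_mem_sub H L (F := F) fun u _ => hcu u hFo hFT hFs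
  have e5 : ∑ i, push (L (β i) : ZMod M) z' ∈ relSub M := by
    have h1 := (relSub M).sub_mem e2 e3
    rwa [sub_sub_cancel] at h1
  have e6 : ((∑ u ∈ H, L u : ℕ) : ℤ) • F ∈ relSub M := by
    have h1 := (relSub M).add_mem e4 (e1 ▸ e5)
    rwa [sub_add_cancel] at h1
  have hodd : Odd (∑ u ∈ H, L u) :=
    (card_sum_odd H L fun u _ => (hL1 u).odd_of_ne_two (hL2 u)).mpr hHodd
  exact mem_of_odd_mul (by exact_mod_cast hodd) hFo hFT e6

end Pool.Agent.Lib.MP_938ce2_ag_sc
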