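import Pool.Agent.Lib.MP_938ce2_ag_sc.Core

/-!
`p w - p_* w` is a combination of relations as soon as it satisfies the Tate condition.
-/

set_option autoImplicit false
set_option linter.unusedSectionVars false

open Finset

namespace Pool.Agent.Lib.MP_938ce2_ag_sc

open Pool.Agent.Lib.MP_938ce2_ag_h99

variable {m : ℕ} [NeZero m] {p : ℕ} {E : ZMod m}

lemma push_comp (x y : ZMod m) (F : ZMod m → ℤ) : push x (push y F) = push (x * y) F := by
  funext b
  have h1 : push (x * y) F b = ∑ c ∈ univ.filter (fun c : ZMod m => x * c = b),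
      ∑ a ∈ (univ.filter (fun a : ZMod m => x * y * a = b)).filter (fun a => y * a = c), F a := by
    unfold push
    symm
    apply sum_fiberwise_of_maps_to
    intro a ha
    rw [mem_filter] at ha ⊢
    exact ⟨mem_univ _, by rw [← mul_assoc, ha.2]⟩
  rw [h1]
  show ∑ c ∈ univ.filter (fun c : ZMod m => x * c = b), push y F c = _
  refine sum_congr rfl fun c hc => ?_
  rw [mem_filter] at hc
  unfold push
  refine sum_congr ?_ fun _ _ => rfl
  ext a
  simp only [mem_filter, mem_univ, true_and]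
  constructor
  · intro h
    refine ⟨?_, h⟩
    rw [mul_assoc, h, hc.2]
  · intro h
    exact h.2

lemma push_one (F : ZMod m → ℤ) : push 1 F = F := by
  funext b
  have : univ.filter (fun a : ZMod m => 1 * a = b) = {b} := by
    ext a
    simp
  rw [push, this, sum_singleton]

lemma push_zsmul (x : ZMod m) (k : ℤ) (F : ZMod m → ℤ) : push x (k • F) = k • push x F := by
  funext b
  simp only [push, Pi.smul_apply, smul_eq_mul, mul_sum]

/-- the number of elements killed by `p` -/
lemma card_ker (hp : p.Prime) (hpm : p ∣ m) :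
    (univ.filter (fun t : ZMod m => (p : ZMod m) * t = 0)).card = p := by
  haveI : NeZero p := ⟨hp.ne_zero⟩
  have h1 : (univ : Finset (ZMod p)).card = p := by rw [card_univ, ZMod.card]
  conv_rhs => rw [← h1]
  symm
  refine card_bij (fun i _ => jj hpm i) ?_ ?_ ?_
  · intro i _
    rw [mem_filter]
    refine ⟨mem_univ _, ?_⟩
    rw [natCast_mul_jj, ZMod.natCast_self, zero_mul, map_zero]
  · intro i _ j _ h
    exact jj_injective hpm h
  · intro t ht
    rw [mem_filter] at ht
    have h2 : addOrderOf t ∣ p := by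
      rw [addOrderOf_dvd_iff_nsmul_eq_zero, nsmul_eq_mul, ht.2]
    rcases (Nat.dvd_prime hp).mp h2 with h3 | h3
    · rw [AddMonoid.addOrderOf_eq_one_iff] at h3
      exact ⟨0, mem_univ _, by rw [map_zero, h3]⟩
    · obtain ⟨u, hu⟩ := exists_unit_of_order hpm h3
      exact ⟨u, mem_univ _, hu⟩

lemma Idem.mul_eq_zero (hp : p.Prime) (hE : Idem p E) {t : ZMod m} (ht : (p : ZMod m) * t = 0) :
    E * t = 0 := by
  have h1 : addOrderOf t ∣ p := by
    rw [addOrderOf_dvd_iff_nsmul_eq_zero, nsmul_eq_mul, ht]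
  have h2 : addOrderOf (E * t) ∣ p := (hE.dvd t).trans h1
  rcases (Nat.dvd_prime hp).mp h2 with h3 | h3
  · rwa [AddMonoid.addOrderOf_eq_one_iff] at h3
  · exact absurd (by rw [h3]) (hE.cop t)

/-- sums over the fibres of multiplication by `p` -/
lemma sum_fibre (w : ZMod m → ℤ) (a : ZMod m) :
    push (p : ZMod m) w ((p : ZMod m) * a)
      = ∑ t ∈ univ.filter (fun t : ZMod m => (p : ZMod m) * t = 0), w (a + t) := by
  unfold push
  refine sum_bij' (fun c _ => c - a) (fun t _ => a + t) ?_ ?_ ?_ ?_ ?_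
  · intro c hc
    rw [mem_filter] at hc ⊢
    exact ⟨mem_univ _, by rw [mul_sub, hc.2, sub_self]⟩
  · intro t ht
    rw [mem_filter] at ht ⊢
    exact ⟨mem_univ _, by rw [mul_add, ht.2, add_zero]⟩
  · intro c _; ring
  · intro t _; ring
  · intro c _
    rw [add_sub_cancel]

/-- The main case: multiplication by a prime. -/
theorem core_prime (hp : p.Prime) (hp2 : p ≠ 2) (hpm : p ∣ m) {w : ZMod m → ℤ} (hw : OddF w)
    (hT : TateF ((p : ℤ) • w - push (p : ZMod m) w)) :
    (p : ℤ) • w - push (p : ZMod m) w ∈ relSub m := by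
  obtain ⟨E, hE⟩ := exists_idem (m := m) hp
  set F := (p : ℤ) • w - push (p : ZMod m) w with hF
  set g := push (p : ZMod m) w with hg
  have hgo : OddF g := push_odd _ hw
  have hgs : ∀ a, g a ≠ 0 → ∃ b, a = (p : ZMod m) * b := by
    intro a ha
    obtain ⟨b, hb, -⟩ := push_ne_zero ha
    exact ⟨b, hb.symm⟩
  have hrel : rel p g ∈ relSub m := AddSubgroup.subset_closure ⟨p, g, hp, hpm, hgo, hgs, rfl⟩
  have hwo : OddF ((p : ℤ) • w) := by
    intro a
    simp only [Pi.smul_apply, hw a, smul_neg]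
  have hFo : OddF F := hwo.sub hgo
  have h1 : F - rel p g = fun b => (p : ℤ) * w b - g ((p : ZMod m) * b) := by
    funext b
    simp only [hF, Pi.sub_apply, Pi.smul_apply, smul_eq_mul, rel]
    ring
  have h2 : push E (F - rel p g) = 0 := by
    rw [h1]
    funext b
    simp only [push, sum_sub_distrib, Pi.zero_apply]
    rw [← mul_sum, sub_eq_zero]
    have h3 : ∀ a ∈ univ.filter (fun a : ZMod m => E * a = b), g ((p : ZMod m) * a)
        = ∑ t ∈ univ.filter (fun t : ZMod m => (p : ZMod m) * t = 0), w (a + t) :=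
      fun a _ => sum_fibre w a
    rw [sum_congr rfl h3, sum_comm]
    have h4 : ∀ t ∈ univ.filter (fun t : ZMod m => (p : ZMod m) * t = 0),
        ∑ a ∈ univ.filter (fun a : ZMod m => E * a = b), w (a + t)
          = ∑ a ∈ univ.filter (fun a : ZMod m => E * a = b), w a := by
      intro t ht
      rw [mem_filter] at ht
      have h5 := hE.mul_eq_zero hp ht.2
      refine sum_bij' (fun a _ => a + t) (fun a _ => a - t) ?_ ?_ ?_ ?_ ?_
      · intro a ha
        rw [mem_filter] at ha ⊢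
        exact ⟨mem_univ _, by rw [mul_add, h5, add_zero, ha.2]⟩
      · intro a ha
        rw [mem_filter] at ha ⊢
        exact ⟨mem_univ _, by rw [mul_sub, h5, sub_zero, ha.2]⟩
      · intro a _; ring
      · intro a _; ring
      · intro a _; rfl
    rw [sum_congr rfl h4, sum_const, card_ker hp hpm, nsmul_eq_mul]
  have h3 := core hp hp2 hE m (hFo.sub (hgo.rel p)) (hT.sub (rel_tate hp.pos hpm hgo hgs)) h2
    fun a _ => Nat.le_of_dvd (Nat.pos_of_ne_zero (NeZero.ne m)) (addOrderOf_dvd_m a)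
  have h4 := (relSub m).add_mem h3 hrel
  rwa [sub_add_cancel] at h4

/-- Powers of a prime. -/
theorem core_pow (hp : p.Prime) (hp2 : p ≠ 2) (hpm : p ∣ m) (k : ℕ) {z : ZMod m → ℤ}
    (hz : OddF z) (hT : TateF (((p ^ k : ℕ) : ℤ) • z - push ((p ^ k : ℕ) : ZMod m) z)) :
    ((p ^ k : ℕ) : ℤ) • z - push ((p ^ k : ℕ) : ZMod m) z ∈ relSub m := by
  have key : ∀ k : ℕ, ∃ w : ZMod m → ℤ, OddF w ∧
      ((p ^ k : ℕ) : ℤ) • z - push ((p ^ k : ℕ) : ZMod m) z = (p : ℤ) • w - push (p : ZMod m) w := by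
    intro k
    induction k with
    | zero =>
      refine ⟨0, fun a => by simp, ?_⟩
      rw [pow_zero, Nat.cast_one, Nat.cast_one, one_smul, push_one, push_zero]
      simp
    | succ k ih =>
      obtain ⟨w, hw, h⟩ := ih
      refine ⟨(p : ℤ) • w + push ((p ^ k : ℕ) : ZMod m) z, ?_, ?_⟩
      · intro a
        have h1 := hw a
        have h2 := push_odd ((p ^ k : ℕ) : ZMod m) hz a
        simp only [Pi.add_apply, Pi.smul_apply, h1, h2, smul_eq_mul]
        ring
      · have e1 : push ((p ^ (k + 1) : ℕ) : ZMod m) z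
            = push (p : ZMod m) (push ((p ^ k : ℕ) : ZMod m) z) := by
          rw [push_comp, pow_succ, Nat.cast_mul, mul_comm]
        have e2 : (((p ^ (k + 1) : ℕ) : ℤ) • z : ZMod m → ℤ)
            = (p : ℤ) • (((p ^ k : ℕ) : ℤ) • z) := by
          rw [smul_smul, pow_succ]
          push_cast
          rw [mul_comm]
        have e3 : (((p ^ k : ℕ) : ℤ) • z : ZMod m → ℤ)
            = (p : ℤ) • w - push (p : ZMod m) w + push ((p ^ k : ℕ) : ZMod m) z := by
          rw [← h, sub_add_cancel]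
        rw [e1, e2, e3, push_add, push_zsmul]
        rw [smul_add, smul_sub, smul_add]
        abel
  obtain ⟨w, hw, h⟩ := key k
  rw [h] at hT ⊢
  exact core_prime hp hp2 hpm hw hT

/-- elements killed by `n` -/
lemma exists_jj {n : ℕ} (hn : n ∣ m) {a : ZMod m} (h : addOrderOf a ∣ n) :
    ∃ i : ZMod n, jj hn i = a := by
  have hm : 0 < m := Nat.pos_of_ne_zero (NeZero.ne m)
  have hnp : 0 < n := Nat.pos_of_ne_zero (f_ne_zero hn)
  rw [addOrderOf_dvd_iff_nsmul_eq_zero, nsmul_eq_mul, ← ZMod.natCast_zmod_val a, ← Nat.cast_mul,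
    ZMod.natCast_eq_zero_iff] at h
  have h2 : m / n ∣ a.val := by
    have h3 : n * (m / n) ∣ n * a.val := by rwa [Nat.mul_div_cancel' hn]
    exact Nat.dvd_of_mul_dvd_mul_left hnp h3
  obtain ⟨k, hk⟩ := h2
  exact ⟨((k : ℕ) : ZMod n), by rw [jj_natCast, ← hk, ZMod.natCast_zmod_val]⟩

/-- multiplication by a number prime to `n` on the elements killed by `n` is the action of a
unit -/
lemma exists_unit {n d : ℕ} (hn : n ∣ m) (hd : Nat.Coprime d n) : ∃ s : (ZMod m)ˣ,
    ∀ a : ZMod m, addOrderOf a ∣ n → (s : ZMod m) * a = (d : ZMod m) * a := by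
  have hu : IsUnit (d : ZMod n) := (ZMod.isUnit_iff_coprime d n).mpr hd
  obtain ⟨v, hv⟩ := hu
  obtain ⟨s, hsv⟩ := ZMod.unitsMap_surjective hn v
  refine ⟨s, fun a ha => ?_⟩
  obtain ⟨i, hi⟩ := exists_jj hn ha
  rw [← hi, jj_mul, natCast_mul_jj]
  congr 2
  rw [← hv, ← hsv, ZMod.unitsMap_val]
  rfl

/-- the Tate sum of a push-forward -/
lemma tate_push {n d : ℕ} {z : ZMod m → ℤ} (hs : ∀ a, z a ≠ 0 → addOrderOf a ∣ n)
    {s : (ZMod m)ˣ} (h1 : ∀ a : ZMod m, addOrderOf a ∣ n → (s : ZMod m) * a = (d : ZMod m) * a)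
    (t : (ZMod m)ˣ) : ∑ b, push (d : ZMod m) z b * (((t : ZMod m) * b).val : ℤ)
      = ∑ a, z a * ((((t * s : (ZMod m)ˣ) : ZMod m) * a).val : ℤ) := by
  have h3 : ∑ a, z a * ((((t * s : (ZMod m)ˣ) : ZMod m) * a).val : ℤ)
      = ∑ b, ∑ a ∈ univ.filter (fun a : ZMod m => (d : ZMod m) * a = b),
        z a * ((((t * s : (ZMod m)ˣ) : ZMod m) * a).val : ℤ) := by
    symm
    exact sum_fiberwise_of_maps_to (fun _ _ => mem_univ _) _
  rw [h3]
  refine sum_congr rfl fun b _ => ?_
  unfold push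
  rw [sum_mul]
  refine sum_congr rfl fun a ha => ?_
  rw [mem_filter] at ha
  by_cases hza : z a = 0
  · rw [hza, zero_mul, zero_mul]
  · congr 3
    rw [Units.val_mul, mul_assoc, h1 a (hs a hza), ha.2]

/-- Push-forward along multiplication by a number prime to the orders. -/
lemma push_tate {n d : ℕ} (hn : n ∣ m) (hd : Nat.Coprime d n) {z : ZMod m → ℤ} (hz : TateF z)
    (hs : ∀ a, z a ≠ 0 → addOrderOf a ∣ n) : TateF (push (d : ZMod m) z) := by
  obtain ⟨s, h1⟩ := exists_unit hn hd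
  intro t
  rw [tate_push hs h1 t]
  exact hz _

/-- Multiplication by a number all of whose prime factors are odd and prime to the orders. -/
theorem core_coprime {n : ℕ} (hn : n ∣ m) : ∀ (d : ℕ), Odd d → d ∣ m → Nat.Coprime d n →
    ∀ {z : ZMod m → ℤ}, OddF z → TateF z → (∀ a, z a ≠ 0 → addOrderOf a ∣ n) →
      (d : ℤ) • z - push (d : ZMod m) z ∈ relSub m := by
  intro d
  induction d using Nat.strong_induction_on with
  | _ d ih =>
    intro hodd hdm hcop z hzo hzT hzs
    have hd0 : 0 < d := hodd.pos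
    by_cases h1 : d = 1
    · rw [h1, Nat.cast_one, Nat.cast_one, one_smul, push_one, sub_self]
      exact AddSubgroup.zero_mem _
    · obtain ⟨p, hp, e, rfl⟩ := Nat.exists_prime_and_dvd h1
      have he0 : 0 < e := Nat.pos_of_mul_pos_left hd0
      have hpo : Odd p := (Nat.odd_mul.mp hodd).1
      have heo : Odd e := (Nat.odd_mul.mp hodd).2
      have hp2 : p ≠ 2 := by
        rintro rfl
        exact absurd hpo (by decide)
      have hpm : p ∣ m := (Dvd.intro _ rfl).trans hdm
      have hem : e ∣ m := (Dvd.intro_left _ rfl).trans hdm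
      have hcp : Nat.Coprime p n := hcop.coprime_mul_right
      have hce : Nat.Coprime e n := hcop.coprime_mul_left
      have hlt : e < p * e := by
        have := hp.two_le
        nlinarith
      have h2 := ih e hlt heo hem hce hzo hzT hzs
      set z' := push (e : ZMod m) z with hz'
      have hzT' := push_tate hn hce hzT hzs
      have hzo' : OddF z' := push_odd _ hzo
      have hzs' : ∀ a, z' a ≠ 0 → addOrderOf a ∣ n := by
        intro a ha
        obtain ⟨b, hb, hzb⟩ := push_ne_zero ha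
        have h3 := hzs b hzb
        rw [addOrderOf_dvd_iff_nsmul_eq_zero, nsmul_eq_mul] at h3 ⊢
        rw [← hb]
        linear_combination (e : ZMod m) * h3
      have hpT := push_tate hn hcp hzT' hzs'
      have h3 : (p : ℤ) • z' - push (p : ZMod m) z' ∈ relSub m :=
        core_prime hp hp2 hpm hzo' (TateF.sub (fun t => by
          have := hzT' t
          simp only [Pi.smul_apply, smul_eq_mul, mul_assoc, ← mul_sum]
          rw [this, mul_zero]) hpT)
      have h4 : ((p * e : ℕ) : ℤ) • z - push ((p * e : ℕ) : ZMod m) z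
          = (p : ℤ) • ((e : ℤ) • z - z') + ((p : ℤ) • z' - push (p : ZMod m) z') := by
        rw [hz', push_comp, smul_sub, smul_smul]
        push_cast
        abel
      rw [h4]
      exact (relSub m).add_mem ((relSub m).zsmul_mem h2 _) h3

/-- The Tate condition for `d z - d_* z` gives the one for `z`. -/
theorem tate_of_sub {n d : ℕ} (hn : n ∣ m) (hd : Nat.Coprime d n) (hd2 : 2 ≤ d) {z : ZMod m → ℤ}
    (hs : ∀ a, z a ≠ 0 → addOrderOf a ∣ n) (hT : TateF ((d : ℤ) • z - push (d : ZMod m) z)) :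
    TateF z := by
  obtain ⟨s, h1⟩ := exists_unit hn hd
  set x : (ZMod m)ˣ → ℤ := fun t => ∑ a, z a * (((t : ZMod m) * a).val : ℤ) with hx
  have h2 : ∀ t, (d : ℤ) * x t = x (t * s) := by
    intro t
    have h3 := hT t
    have h4 := tate_push hs h1 t
    simp only [Pi.sub_apply, Pi.smul_apply, smul_eq_mul, sub_mul, sum_sub_distrib] at h3
    rw [h4] at h3
    simp only [hx, mul_sum]
    rw [sub_eq_zero] at h3
    rw [← h3]
    refine sum_congr rfl fun a _ => ?_
    ring
  obtain ⟨t0, -, ht0⟩ := exists_max_image (univ : Finset (ZMod m)ˣ) (fun t => |x t|)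
    ⟨1, mem_univ _⟩
  have h5 : |x t0| = 0 := by
    have h6 := ht0 (t0 * s) (mem_univ _)
    rw [← h2 t0, abs_mul, Nat.abs_cast] at h6
    have h7 : (2 : ℤ) ≤ d := by exact_mod_cast hd2
    have h8 := abs_nonneg (x t0)
    nlinarith
  intro t
  have h6 := ht0 t (mem_univ _)
  rw [h5] at h6
  exact abs_eq_zero.mp (le_antisymm h6 (abs_nonneg _))

/-- Multiplication by an even number divisible by the orders: `d z` is a combination of
relations, for all levels divisible by suitable primes. -/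
theorem exists_two_primes {d : ℕ} (hd : Even d) (hd0 : d ≠ 0) : ∃ l1 l2 : ℕ, l1.Prime ∧ l2.Prime ∧
    l1 ≠ 2 ∧ l2 ≠ 2 ∧ l1 % d = 1 % d ∧ l2 % d = 1 % d ∧ Nat.gcd (l1 - 1) (l2 - 1) = d := by
  have hdd : d * d ≠ 0 := mul_ne_zero hd0 hd0
  haveI : NeZero (d * d) := ⟨hdd⟩
  have hu1 : IsUnit ((1 + d : ℕ) : ZMod (d * d)) := by
    rw [ZMod.isUnit_iff_coprime]
    have : Nat.Coprime (1 + d) d := by simp
    exact Nat.Coprime.mul_right this this
  obtain ⟨l1, hl1, hp1, he1⟩ := Nat.forall_exists_prime_gt_and_eq_mod hu1 2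
  have h1 : ((d * d : ℕ) : ℤ) ∣ (l1 : ℤ) - ((1 + d : ℕ) : ℤ) := by
    rw [← ZMod.intCast_zmod_eq_zero_iff_dvd]
    push_cast
    rw [he1]
    push_cast
    ring
  obtain ⟨k, hk⟩ := h1
  push_cast at hk
  -- `l1 - 1 = d u` with `u = 1 + d k`
  have hl1' : (l1 : ℤ) = 1 + d * (1 + d * k) := by linarith
  have hdpos : (0 : ℤ) < d := by exact_mod_cast Nat.pos_of_ne_zero hd0
  have hupos : 0 < 1 + (d : ℤ) * k := by
    have h2 : (2 : ℤ) < l1 := by exact_mod_cast hl1
    by_contra h
    push Not at h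
    nlinarith
  obtain ⟨u, hu⟩ := Int.eq_ofNat_of_zero_le hupos.le
  have hu0 : u ≠ 0 := by
    rintro rfl
    rw [hu] at hupos
    simp at hupos
  have hl1n : l1 = 1 + d * u := by
    rw [hu] at hl1'
    exact_mod_cast hl1'
  have hud : Nat.Coprime u d := by
    rw [← Nat.isCoprime_iff_coprime]
    refine ⟨1, -k, ?_⟩
    linear_combination -hu
  have hu2 : Nat.Coprime 2 u := hud.symm.coprime_dvd_left hd.two_dvd
  -- the second prime
  obtain ⟨x, hx1, hx2⟩ := Nat.chineseRemainder hud.symm 1 2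
  haveI : NeZero (d * u) := ⟨mul_ne_zero hd0 hu0⟩
  have hu3 : IsUnit ((x : ℕ) : ZMod (d * u)) := by
    rw [ZMod.isUnit_iff_coprime]
    refine Nat.Coprime.mul_right ?_ ?_
    · have : Nat.gcd x d = Nat.gcd 1 d := Nat.ModEq.gcd_eq hx1
      rw [Nat.Coprime, this, Nat.gcd_one_left]
    · have : Nat.gcd x u = Nat.gcd 2 u := Nat.ModEq.gcd_eq hx2
      rw [Nat.Coprime, this]
      exact hu2
  obtain ⟨l2, hl2, hp2, he2⟩ := Nat.forall_exists_prime_gt_and_eq_mod hu3 2
  have h3 : l2 ≡ x [MOD d * u] := (ZMod.natCast_eq_natCast_iff _ _ _).mp he2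
  have h4 : l2 ≡ 1 [MOD d] := (h3.of_mul_right u).trans hx1
  have h5 : l2 ≡ 2 [MOD u] := (h3.of_mul_left d).trans hx2
  have h6 : d ∣ l2 - 1 := (Nat.modEq_iff_dvd' (by omega)).mp h4.symm
  have h7 : Nat.Coprime u (l2 - 1) := by
    have h8 : u ∣ l2 - 2 := (Nat.modEq_iff_dvd' (by omega)).mp h5.symm
    obtain ⟨y, hy⟩ := h8
    have h9 : l2 - 1 = u * y + 1 := by omega
    rw [h9]
    simp
  refine ⟨l1, l2, hp1, hp2, by omega, by omega, ?_, h4, ?_⟩
  · rw [hl1n]
    simp
  · rw [hl1n, Nat.add_sub_cancel_left, Nat.Coprime.gcd_mul_right_cancel d h7]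
    exact Nat.gcd_eq_left h6

theorem core_even {n d l1 l2 : ℕ} (hn : n ∣ m) (hnd : n ∣ d) (hp1 : l1.Prime) (hp2 : l2.Prime)
    (h1 : l1 ≠ 2) (h2 : l2 ≠ 2) (hm1 : l1 ∣ m) (hm2 : l2 ∣ m) (he1 : l1 % d = 1 % d)
    (he2 : l2 % d = 1 % d) (hg : Nat.gcd (l1 - 1) (l2 - 1) = d) {z : ZMod m → ℤ} (hzo : OddF z)
    (hzT : TateF z) (hzs : ∀ a, z a ≠ 0 → addOrderOf a ∣ n) : (d : ℤ) • z ∈ relSub m := by
  have key : ∀ l : ℕ, l.Prime → l ≠ 2 → l ∣ m → l % d = 1 % d →
      ((l - 1 : ℕ) : ℤ) • z ∈ relSub m := by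
    intro l hl hl2 hlm hle
    have hl1 : 1 ≤ l := hl.one_le
    have hdl : d ∣ l - 1 := (Nat.modEq_iff_dvd' hl1).mp (show 1 % d = l % d from hle.symm)
    have h3 : ∀ a : ZMod m, addOrderOf a ∣ n → (l : ZMod m) * a = a := by
      intro a ha
      have h4 : addOrderOf a ∣ l - 1 := ha.trans (hnd.trans hdl)
      rw [addOrderOf_dvd_iff_nsmul_eq_zero, nsmul_eq_mul, Nat.cast_sub hl1] at h4
      push_cast at h4
      linear_combination h4
    have h5 : push (l : ZMod m) z = z := by
      funext b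
      unfold push
      rw [sum_filter]
      have h6 : ∀ a, (if (l : ZMod m) * a = b then z a else 0) = if a = b then z a else 0 := by
        intro a
        by_cases hza : z a = 0
        · rw [hza, ite_self, ite_self]
        · rw [h3 a (hzs a hza)]
      simp_rw [h6]
      rw [sum_ite_eq' univ b z, if_pos (mem_univ _)]
    have h7 : (l : ℤ) • z - push (l : ZMod m) z = ((l - 1 : ℕ) : ℤ) • z := by
      rw [h5, Nat.cast_sub hl1, sub_smul]
      simp
    rw [← h7]
    apply core_prime hl hl2 hlm hzo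
    rw [h7]
    intro t
    have := hzT t
    simp only [Pi.smul_apply, smul_eq_mul, mul_assoc, ← mul_sum]
    rw [this, mul_zero]
  have hb := Nat.gcd_eq_gcd_ab (l1 - 1) (l2 - 1)
  rw [hg] at hb
  rw [hb, add_smul, mul_comm, mul_smul, mul_comm, mul_smul]
  exact (relSub m).add_mem ((relSub m).zsmul_mem (key l1 hp1 h1 hm1 he1) _)
    ((relSub m).zsmul_mem (key l2 hp2 h2 hm2 he2) _)

end Pool.Agent.Lib.MP_938ce2_ag_sc
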