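import Pool.Agent.Lib.MP_938ce2_ag_sc.TwoPow

/-!
Averaging over the elements of odd order.
-/

set_option autoImplicit false
set_option linter.unusedSectionVars false

open Finset

namespace Pool.Agent.Lib.MP_938ce2_ag_sc

open Pool.Agent.Lib.MP_938ce2_ag_h99

variable {m : ℕ} [NeZero m]

lemma char_sum_odd {χ : DirichletCharacter ℂ m} (hev : χ.Even) {X : (ZMod m)ˣ → ℤ}
    (hX : ∀ t, X ((-1) * t) = - X t) : ∑ t : (ZMod m)ˣ, χ (t : ZMod m) * (X t : ℂ) = 0 := by
  have h1 := char_sum_translate χ X (-1)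
  have h2 : χ (((-1 : (ZMod m)ˣ)⁻¹ : (ZMod m)ˣ) : ZMod m) = 1 := by
    have : (-1 : (ZMod m)ˣ)⁻¹ = -1 := by simp
    rw [this, Units.val_neg, Units.val_one]
    exact hev
  rw [h2, one_mul] at h1
  have h3 : ∑ t : (ZMod m)ˣ, χ (t : ZMod m) * (X ((-1) * t) : ℂ)
      = - ∑ t : (ZMod m)ˣ, χ (t : ZMod m) * (X t : ℂ) := by
    rw [← sum_neg_distrib]
    refine sum_congr rfl fun t _ => ?_
    rw [hX]
    push_cast
    ring
  rw [h3] at h1
  have h4 : (2 : ℂ) * ∑ t : (ZMod m)ˣ, χ (t : ZMod m) * (X t : ℂ) = 0 := by linear_combination -h1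
  exact (mul_eq_zero.mp h4).resolve_left two_ne_zero

lemma char_sum_sum (χ : DirichletCharacter ℂ m) {ι : Type*} (s : Finset ι) (β : ι → (ZMod m)ˣ)
    (X : (ZMod m)ˣ → ℤ) :
    ∑ t : (ZMod m)ˣ, χ (t : ZMod m) * ((∑ i ∈ s, X (β i * t) : ℤ) : ℂ)
      = (∑ i ∈ s, χ (((β i)⁻¹ : (ZMod m)ˣ) : ZMod m)) *
        ∑ t : (ZMod m)ˣ, χ (t : ZMod m) * (X t : ℂ) := by
  rw [sum_mul]
  have h1 : ∀ i ∈ s, χ (((β i)⁻¹ : (ZMod m)ˣ) : ZMod m)
      * ∑ t : (ZMod m)ˣ, χ (t : ZMod m) * (X t : ℂ)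
      = ∑ t : (ZMod m)ˣ, χ (t : ZMod m) * (X (β i * t) : ℂ) := fun i _ =>
    (char_sum_translate χ X (β i)).symm
  rw [sum_congr rfl h1, sum_comm]
  refine sum_congr rfl fun t _ => ?_
  push_cast
  rw [mul_sum]

theorem avg {n : ℕ} (β : Fin n → (ZMod m)ˣ) {X : (ZMod m)ˣ → ℤ}
    (hX : ∀ t, X ((-1) * t) = - X t) (h0 : ∀ t, ∑ i, X (β i * t) = 0)
    (hχ : ∀ χ : DirichletCharacter ℂ m, χ.Odd → (∃ k : ℕ, χ ^ 2 ^ k = 1) →
      ∑ i, χ (β i : ZMod m) ≠ 0) :
    ∃ H : Finset (ZMod m)ˣ, Odd H.card ∧ ∀ t, ∑ u ∈ H, X (u * t) = 0 := by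
  classical
  have hc0 : Fintype.card (ZMod m)ˣ ≠ 0 := Fintype.card_ne_zero
  obtain ⟨e, h, hodd, hcard⟩ := Nat.exists_eq_two_pow_mul_odd hc0
  set G : Subgroup (ZMod m)ˣ := (powMonoidHom h : (ZMod m)ˣ →* (ZMod m)ˣ).ker with hG
  have hmem : ∀ u : (ZMod m)ˣ, u ∈ G ↔ u ^ h = 1 := fun u => by
    rw [hG, MonoidHom.mem_ker, powMonoidHom_apply]
  set H : Finset (ZMod m)ˣ := univ.filter (fun u => u ∈ G) with hH
  have hHG : ∀ u, u ∈ H ↔ u ∈ G := fun u => by rw [hH, mem_filter]; simp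
  have hHcard : H.card = Fintype.card G := by
    rw [Fintype.card_subtype]
  refine ⟨H, ?_, ?_⟩
  · rw [hHcard, ← Nat.not_even_iff_odd]
    intro hev
    haveI : Fact (Nat.Prime 2) := ⟨Nat.prime_two⟩
    obtain ⟨x, hx⟩ := exists_prime_orderOf_dvd_card 2 (even_iff_two_dvd.mp hev)
    have h1 : x ^ h = 1 := by
      apply Subtype.ext
      have := (hmem x.1).mp x.2
      simpa using this
    have h2 : 2 ∣ h := by rw [← hx]; exact orderOf_dvd_of_pow_eq_one h1
    exact (Nat.not_even_iff_odd.mpr hodd) (even_iff_two_dvd.mpr h2)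
  · have hall : ∀ t, (fun t => ∑ u ∈ H, X (u * t)) t = 0 := by
      apply eq_zero_of_char_sums
      intro χ
      show ∑ t : (ZMod m)ˣ, χ (t : ZMod m) * ((∑ u ∈ H, X (u * t) : ℤ) : ℂ) = 0
      rw [char_sum_sum χ H (fun u => u) X]
      rcases χ.even_or_odd with hev | hod
      · rw [char_sum_odd hev hX, mul_zero]
      · by_cases htriv : ∀ u ∈ G, χ (u : ZMod m) = 1
        · have hpow : χ ^ 2 ^ e = 1 := by
            apply MulChar.ext
            intro u
            rw [MulChar.pow_apply_coe, MulChar.one_apply_coe, ← map_pow, ← Units.val_pow_eq_pow_val]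
            apply htriv
            rw [hmem, ← pow_mul, ← hcard]
            exact pow_card_eq_one
          have hne := hχ χ⁻¹ (by
            show χ⁻¹ (-1) = -1
            have h2 : χ (-1) = -1 := hod
            have e1 : (-1 : ZMod m) = (((-1 : (ZMod m)ˣ)) : ZMod m) := by simp
            have e2 : (-1 : (ZMod m)ˣ)⁻¹ = -1 := by simp
            rw [MulChar.inv_apply, e1, Ring.inverse_unit, e2, ← e1, h2]) ⟨e, by
              rw [inv_pow, hpow, inv_one]⟩
          have h3 := char_sum_sum χ univ β X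
          have h4 : ∑ t : (ZMod m)ˣ, χ (t : ZMod m) * ((∑ i, X (β i * t) : ℤ) : ℂ) = 0 := by
            apply sum_eq_zero
            intro t _
            rw [h0 t, Int.cast_zero, mul_zero]
          rw [h4] at h3
          have h5 : ∑ i, χ (((β i)⁻¹ : (ZMod m)ˣ) : ZMod m) ≠ 0 := by
            have e5 : ∑ i, χ (((β i)⁻¹ : (ZMod m)ˣ) : ZMod m) = ∑ i, χ⁻¹ (β i : ZMod m) := by
              refine sum_congr rfl fun i _ => ?_
              rw [MulChar.inv_apply, Ring.inverse_unit]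
            rw [e5]
            exact hne
          rw [(mul_eq_zero.mp h3.symm).resolve_left h5, mul_zero]
        · push Not at htriv
          obtain ⟨u0, hu0, hne⟩ := htriv
          have h6 : ∑ u ∈ H, χ ((u⁻¹ : (ZMod m)ˣ) : ZMod m) = 0 := by
            set S := ∑ u ∈ H, χ ((u⁻¹ : (ZMod m)ˣ) : ZMod m) with hS
            have h7 : χ (u0 : ZMod m) * S = S := by
              rw [hS, mul_sum]
              refine sum_bij' (fun u _ => u0⁻¹ * u) (fun u _ => u0 * u) ?_ ?_ ?_ ?_ ?_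
              · intro u hu
                rw [hHG] at hu ⊢
                exact G.mul_mem (G.inv_mem hu0) hu
              · intro u hu
                rw [hHG] at hu ⊢
                exact G.mul_mem hu0 hu
              · intro u _; simp
              · intro u _; simp
              · intro u _
                rw [← map_mul, ← Units.val_mul, mul_inv_rev, inv_inv, mul_comm u0]
            have h8 : (χ (u0 : ZMod m) - 1) * S = 0 := by rw [sub_mul, h7, one_mul, sub_self]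
            exact (mul_eq_zero.mp h8).resolve_left (sub_ne_zero.mpr hne)
          rw [h6, zero_mul]
    exact hall

end Pool.Agent.Lib.MP_938ce2_ag_sc
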