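import Pool.Agent.Lib.MP_938ce2_ag_sc.Vfun
import Pool.Agent.Lib.MP_938ce2_ag_h6.Extract

/-!
Vanishing of the Fourier coefficients at the top level `f = p n` for characters of conductor `n`,
for functions with vanishing sums over the cosets of the `p`-part.
-/

set_option autoImplicit false
set_option linter.unusedSectionVars false

open Finset

namespace Pool.Agent.Lib.MP_938ce2_ag_sc

open Pool.Agent.Lib.MP_938ce2_ag_h99

variable {m : ℕ} [NeZero m] {p : ℕ} {E : ZMod m}

/-- a unit fixing an element of order `n` is `1` modulo `n` -/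
lemma unit_eq_one {n : ℕ} (hn : n ∣ m) {s : (ZMod m)ˣ} {c : ZMod m} (hc : addOrderOf c = n)
    (h : (s : ZMod m) * c = c) : ZMod.unitsMap hn s = 1 := by
  obtain ⟨v, hv⟩ := exists_unit_of_order hn hc
  rw [← hv, jj_mul] at h
  have h1 := jj_injective hn h
  apply Units.ext
  rw [ZMod.unitsMap_val]
  have h2 : (ZMod.castHom hn (ZMod n) (s : ZMod m) - 1) * (v : ZMod n) = 0 := by
    rw [sub_mul, one_mul, h1, sub_self]
  have h3 := congrArg (· * ((v⁻¹ : (ZMod n)ˣ) : ZMod n)) h2
  simp only [zero_mul, mul_assoc, Units.mul_inv, mul_one] at h3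
  exact sub_eq_zero.mp h3

lemma Idem.order_pn (hp : p.Prime) (hE : Idem p E) {n : ℕ} (hpn : ¬ p ∣ n) {a : ZMod m}
    (ha : addOrderOf a = p * n) : addOrderOf (E * a) = n ∧ (p : ZMod m) * a = p * (E * a) := by
  have h0 : E * (a - E * a) = 0 := by linear_combination (-a) * hE.idem
  have h1 := hE.order_add hp (hE.cop a) h0
  rw [add_sub_cancel, ha] at h1
  obtain ⟨k, hk⟩ := hE.ker _ h0
  have c1 : Nat.Coprime (addOrderOf (E * a)) p :=
    ((Nat.Prime.coprime_iff_not_dvd hp).mpr (hE.cop a)).symm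
  have c2 : Nat.Coprime n p := ((Nat.Prime.coprime_iff_not_dvd hp).mpr hpn).symm
  have e1 : addOrderOf (E * a) = n := by
    apply Nat.dvd_antisymm
    · exact c1.dvd_of_dvd_mul_left (h1 ▸ Dvd.intro _ rfl)
    · rw [hk] at h1
      exact (Nat.Coprime.pow_right k c2).dvd_of_dvd_mul_right
        (h1 ▸ Dvd.intro_left _ rfl)
  refine ⟨e1, ?_⟩
  have hn0 : 0 < n := by
    rcases Nat.eq_zero_or_pos n with h | h
    · exact absurd (h ▸ dvd_zero p) hpn
    · exact h
  have h2 : addOrderOf (a - E * a) = p := by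
    rw [e1, mul_comm] at h1
    exact (Nat.eq_of_mul_eq_mul_left hn0 h1).symm
  have h3 := addOrderOf_nsmul_eq_zero (a - E * a)
  rw [h2, nsmul_eq_mul] at h3
  linear_combination h3

variable {n : ℕ} [NeZero n] {hn : n ∣ m} {χ : DirichletCharacter ℂ n} {V : ZMod m → ℂ}

/-- distribution relation of the functional -/
lemma V_dist (hp : p.Prime) (hpm : p ∣ m) (hV1 : ∀ F : ZMod m → ℤ, TateF F →
      ∑ a, (F a : ℂ) * V a = 0) (hVn : ∀ a, V (-a) = - V a) (b : ZMod m) :
    ∑ a ∈ univ.filter (fun a : ZMod m => (p : ZMod m) * a = (p : ZMod m) * b), V a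
      = V ((p : ZMod m) * b) := by
  classical
  set c := (p : ZMod m) * b with hc
  set g : ZMod m → ℤ := fun a => (if a = c then 1 else 0) - (if a = -c then 1 else 0) with hg
  have hgo : OddF g := by
    intro a
    simp only [hg]
    have h1 : (-a = c) ↔ (a = -c) := neg_eq_iff_eq_neg
    have h2 : (-a = -c) ↔ (a = c) := neg_inj
    rw [if_congr h1 rfl rfl, if_congr h2 rfl rfl]
    ring
  have hgs : ∀ a, g a ≠ 0 → ∃ b, a = (p : ZMod m) * b := by
    intro a ha
    by_cases h1 : a = c
    · exact ⟨b, h1⟩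
    · by_cases h2 : a = -c
      · exact ⟨-b, by rw [h2, hc, mul_neg]⟩
      · exact absurd (by simp [hg, h1, h2]) ha
  have h1 := hV1 _ (rel_tate hp.pos hpm hgo hgs)
  have h2 : ∑ a, ((rel p g a : ℤ) : ℂ) * V a
      = (∑ a, (if (p : ZMod m) * a = c then V a else 0))
        - (∑ a, (if (p : ZMod m) * a = -c then V a else 0)) - V c + V (-c) := by
    have h3 : ∀ a, ((rel p g a : ℤ) : ℂ) * V a = (if (p : ZMod m) * a = c then V a else 0)
        - (if (p : ZMod m) * a = -c then V a else 0) - (if a = c then V a else 0)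
        + (if a = -c then V a else 0) := by
      intro a
      simp only [rel, hg]
      push_cast
      split_ifs <;> ring
    simp_rw [h3]
    rw [sum_add_distrib, sum_sub_distrib, sum_sub_distrib, sum_ite_eq' univ c V,
      sum_ite_eq' univ (-c) V]
    simp
  have h4 : (∑ a, (if (p : ZMod m) * a = -c then V a else 0))
      = - ∑ a, (if (p : ZMod m) * a = c then V a else 0) := by
    rw [← sum_neg_distrib]
    refine Fintype.sum_equiv (Equiv.neg _) _ _ fun a => ?_
    rw [Equiv.neg_apply, mul_neg, hVn]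
    by_cases h : (p : ZMod m) * a = -c
    · rw [if_pos h, if_pos (by rw [h, neg_neg]), neg_neg]
    · rw [if_neg h, if_neg (fun h' => h (by rw [← h', neg_neg])), neg_zero]
  rw [h2, h4, hVn] at h1
  rw [sum_filter]
  linear_combination h1 / 2

lemma V_neg (hod : χ.Odd) (hV2 : ∀ (s : (ZMod m)ˣ) (a : ZMod m), V ((s : ZMod m) * a)
      = χ ((ZMod.unitsMap hn s : (ZMod n)ˣ) : ZMod n) * V a) (a : ZMod m) :
    V (-a) = - V a := by
  have h1 := hV2 (-1) a
  have h2 : ((ZMod.unitsMap hn (-1) : (ZMod n)ˣ) : ZMod n) = -1 := by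
    rw [ZMod.unitsMap_val, Units.val_neg, Units.val_one]
    exact (map_neg (ZMod.castHom hn (ZMod n)) 1).trans (by rw [map_one])
  rw [h2, Units.val_neg, Units.val_one, neg_one_mul] at h1
  rw [h1, show χ (-1) = -1 from hod, neg_one_mul]

/-- the value of the functional on elements of order `p n` -/
theorem V_val (hp : p.Prime) (hpm : p ∣ m) (hE : Idem p E) (hpn : ¬ p ∣ n) (hn1 : n ≠ 1)
    (hV1 : ∀ F : ZMod m → ℤ, TateF F → ∑ a, (F a : ℂ) * V a = 0) (hVn : ∀ a, V (-a) = - V a)
    (hV2 : ∀ (s : (ZMod m)ˣ) (a : ZMod m), V ((s : ZMod m) * a)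
      = χ ((ZMod.unitsMap hn s : (ZMod n)ˣ) : ZMod n) * V a)
    {a : ZMod m} (ha : addOrderOf a = p * n) :
    ((p : ℂ) - 1) * V a = (χ (p : ZMod n) - 1) * V (E * a) := by
  classical
  obtain ⟨h1, h2⟩ := hE.order_pn hp hpn ha
  have hpnm : p * n ∣ m := ha ▸ addOrderOf_dvd_m a
  haveI : NeZero (p * n) := ⟨mul_ne_zero hp.ne_zero (NeZero.ne n)⟩
  have hpa : addOrderOf ((p : ZMod m) * a) = n := by
    rw [addOrderOf_natCast_mul hp.ne_zero (ha ▸ Dvd.intro _ rfl), ha,
      Nat.mul_div_cancel_left _ hp.pos]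
  have hpa0 : (p : ZMod m) * a ≠ 0 := by
    intro h
    rw [h, addOrderOf_zero] at hpa
    exact hn1 hpa.symm
  -- the values on the fibre
  have hval : ∀ b : ZMod m, (p : ZMod m) * b = p * a → b ≠ E * a → V b = V a := by
    intro b hb hbE
    have hw0 : (p : ZMod m) * (b - E * a) = 0 := by rw [mul_sub, hb, ← h2, sub_self]
    have hwo : addOrderOf (b - E * a) ∣ p := by
      rw [addOrderOf_dvd_iff_nsmul_eq_zero, nsmul_eq_mul, hw0]
    have hwp : addOrderOf (b - E * a) = p := by
      rcases (Nat.dvd_prime hp).mp hwo with h | h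
      · rw [AddMonoid.addOrderOf_eq_one_iff, sub_eq_zero] at h
        exact absurd h hbE
      · exact h
    have hbo : addOrderOf b = p * n := by
      have h3 : b = E * a + (b - E * a) := by ring
      have h4 : Nat.Coprime (addOrderOf (E * a)) (addOrderOf (b - E * a)) := by
        rw [hwp]
        exact ((Nat.Prime.coprime_iff_not_dvd hp).mpr (hE.cop a)).symm
      rw [h3, AddCommute.addOrderOf_add_eq_mul_addOrderOf_of_coprime (AddCommute.all _ _) h4,
        hwp, h1, mul_comm]
    obtain ⟨ua, hua⟩ := exists_unit_of_order hpnm ha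
    obtain ⟨ub, hub⟩ := exists_unit_of_order hpnm hbo
    obtain ⟨s, hs⟩ := ZMod.unitsMap_surjective hpnm (ub * ua⁻¹)
    have h5 : (s : ZMod m) * a = b := by
      rw [← hua, jj_mul]
      have h6 : ZMod.castHom hpnm (ZMod (p * n)) (s : ZMod m) = ((ub * ua⁻¹ : (ZMod (p * n))ˣ) :
          ZMod (p * n)) := by
        rw [← hs, ZMod.unitsMap_val]
        rfl
      rw [h6, ← Units.val_mul, inv_mul_cancel_right, hub]
    have h7 : (s : ZMod m) * ((p : ZMod m) * a) = (p : ZMod m) * a := by
      linear_combination (p : ZMod m) * h5 + hb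
    have h8 := unit_eq_one hn hpa h7
    rw [← h5, hV2, h8, Units.val_one, map_one, one_mul]
  -- the sum over the fibre
  have hd := V_dist hp hpm hV1 hVn a
  have hcard := Pool.Agent.Lib.MP_938ce2_ag_h6.card_fib hp.pos hpm hpa0
  have hcard' : (univ.filter (fun b : ZMod m => (p : ZMod m) * b = (p : ZMod m) * a)).card = p :=
    hcard
  have hmem : E * a ∈ univ.filter (fun b : ZMod m => (p : ZMod m) * b = (p : ZMod m) * a) := by
    rw [mem_filter]
    exact ⟨mem_univ _, h2.symm⟩
  rw [← add_sum_erase _ _ hmem] at hd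
  have h9 : ∑ b ∈ (univ.filter (fun b : ZMod m => (p : ZMod m) * b = (p : ZMod m) * a)).erase
      (E * a), V b = ((p : ℂ) - 1) * V a := by
    rw [sum_congr rfl (g := fun _ => V a) (fun b hb => by
      rw [mem_erase, mem_filter] at hb
      exact hval b hb.2.2 hb.1), sum_const, card_erase_of_mem hmem, hcard', nsmul_eq_mul,
      Nat.cast_sub hp.one_le, Nat.cast_one]
  -- the value at `p a`
  have h10 : V ((p : ZMod m) * a) = χ (p : ZMod n) * V (E * a) := by
    have hu : IsUnit (p : ZMod n) := by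
      rw [ZMod.isUnit_iff_coprime]
      exact (Nat.Prime.coprime_iff_not_dvd hp).mpr hpn
    obtain ⟨v, hv⟩ := hu
    obtain ⟨t, ht⟩ := ZMod.unitsMap_surjective hn v
    obtain ⟨w, hw⟩ := exists_unit_of_order hn h1
    have h11 : (t : ZMod m) * (E * a) = (p : ZMod m) * a := by
      rw [h2, ← hw, jj_mul, natCast_mul_jj]
      congr 2
      rw [← hv, ← ht, ZMod.unitsMap_val]
      rfl
    rw [← h11, hV2, ht, hv]
  rw [h9, h10] at hd
  linear_combination hd

/-- Vanishing of the Fourier coefficients of conductor `n` at the level `p n`. -/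
theorem char_sum_p (hp : p.Prime) (hE : Idem p E) (hpn : ¬ p ∣ n) (hf : p * n ∣ m)
    [NeZero (p * n)] (hχ : χ.IsPrimitive) (hod : χ.Odd) {F : ZMod m → ℤ}
    (hT : TateF F) (h0 : push E F = 0) (hs : ∀ a, F a ≠ 0 → addOrderOf a ≤ p * n) :
    ∑ u : (ZMod (p * n))ˣ, χ (((u : ZMod (p * n)).val : ℕ) : ZMod n)
      * (F (jj hf (u : ZMod (p * n))) : ℂ) = 0 := by
  classical
  have hpm : p ∣ m := (Dvd.intro _ rfl).trans hf
  have hn : n ∣ m := (Dvd.intro_left _ rfl).trans hf
  have hn1 : n ≠ 1 := by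
    rintro rfl
    have h1 : χ = 1 := DirichletCharacter.level_one χ
    have h2 : χ (-1) = -1 := hod
    rw [h1, MulChar.one_apply (isUnit_one.neg)] at h2
    norm_num at h2
  obtain ⟨V, hV1, hV2, hV3, hV4⟩ := exists_V hn χ hχ hod
  have hVn := V_neg hod hV2
  have hpos : 0 < n := Nat.pos_of_ne_zero (NeZero.ne n)
  have hcop : Nat.Coprime p n := (Nat.Prime.coprime_iff_not_dvd hp).mpr hpn
  -- orders in the support
  have hord : ∀ a, F a ≠ 0 → V a ≠ 0 → addOrderOf a = n ∨ addOrderOf a = p * n := by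
    intro a hFa hVa
    have h1 : n ∣ addOrderOf a := by
      by_contra h
      exact hVa (hV3 a h)
    have hap : 0 < addOrderOf a := addOrderOf_pos a
    by_cases hpa : p ∣ addOrderOf a
    · right
      exact le_antisymm (hs a hFa) (Nat.le_of_dvd hap (hcop.mul_dvd_of_dvd_of_dvd hpa h1))
    · left
      have h2 := hE.order_le hp h0 hs hpa hFa
      have h3 : addOrderOf a ≤ n := Nat.le_of_mul_le_mul_left h2 hp.pos
      exact le_antisymm h3 (Nat.le_of_dvd hap h1)
  have hne : n ≠ p * n := by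
    intro h
    have := hp.two_le
    nlinarith
  set A := univ.filter (fun a : ZMod m => addOrderOf a = p * n) with hA
  set B := univ.filter (fun a : ZMod m => addOrderOf a = n) with hB
  have hsplit : ∑ a, (F a : ℂ) * V a = ∑ a ∈ A, (F a : ℂ) * V a + ∑ a ∈ B, (F a : ℂ) * V a := by
    rw [← sum_union]
    · symm
      apply sum_subset (subset_univ _)
      intro a _ ha
      by_contra h
      have hFa : F a ≠ 0 := by
        intro h'
        apply h
        rw [h']
        simp
      have hVa : V a ≠ 0 := right_ne_zero_of_mul h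
      apply ha
      rw [mem_union, hA, hB, mem_filter, mem_filter]
      rcases hord a hFa hVa with h1 | h1
      · exact Or.inr ⟨mem_univ _, h1⟩
      · exact Or.inl ⟨mem_univ _, h1⟩
    · rw [Finset.disjoint_left]
      intro a ha hb
      rw [hA, mem_filter] at ha
      rw [hB, mem_filter] at hb
      exact hne (hb.2.symm.trans ha.2)
  -- the elements of order `n`
  have hB1 : ∀ b ∈ B, (F b : ℂ) * V b = - ∑ a ∈ A.filter (fun a => E * a = b),
      (F a : ℂ) * V (E * a) := by
    intro b hb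
    rw [hB, mem_filter] at hb
    have hpb : ¬ p ∣ addOrderOf b := by rw [hb.2]; exact hpn
    have h1 := congrFun h0 b
    simp only [push, Pi.zero_apply] at h1
    have hmem : b ∈ univ.filter (fun a : ZMod m => E * a = b) := by
      rw [mem_filter]
      exact ⟨mem_univ _, hE.fix b hpb⟩
    rw [← add_sum_erase _ _ hmem] at h1
    have h2 : ∑ a ∈ (univ.filter (fun a : ZMod m => E * a = b)).erase b, F a
        = ∑ a ∈ A.filter (fun a => E * a = b), F a := by
      symm
      apply sum_subset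
      · intro a ha
        rw [mem_filter, hA, mem_filter] at ha
        rw [mem_erase, mem_filter]
        refine ⟨?_, mem_univ _, ha.2⟩
        rintro rfl
        exact hpb (ha.1.2 ▸ Dvd.intro _ rfl)
      · intro a ha hna
        rw [mem_erase, mem_filter] at ha
        by_contra hFa
        apply hna
        rw [mem_filter, hA, mem_filter]
        refine ⟨⟨mem_univ _, ?_⟩, ha.2.2⟩
        have hpa : p ∣ addOrderOf a := by
          by_contra h
          exact ha.1 ((hE.fix a h).symm.trans ha.2.2)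
        have h3 := hE.mul_dvd hp hpa
        rw [ha.2.2, hb.2] at h3
        exact le_antisymm (hs a hFa) (Nat.le_of_dvd (addOrderOf_pos a) h3)
    rw [h2] at h1
    have h3 : ∑ a ∈ A.filter (fun a => E * a = b), (F a : ℂ) * V (E * a)
        = (∑ a ∈ A.filter (fun a => E * a = b), (F a : ℂ)) * V b := by
      rw [sum_mul]
      refine sum_congr rfl fun a ha => ?_
      rw [mem_filter] at ha
      rw [ha.2]
    rw [h3]
    have h4 : (F b : ℂ) = - ∑ a ∈ A.filter (fun a => E * a = b), (F a : ℂ) := by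
      have : F b = - ∑ a ∈ A.filter (fun a => E * a = b), F a := by linarith
      rw [this]
      push_cast
      rfl
    rw [h4]
    ring
  have hB2 : ∑ b ∈ B, (F b : ℂ) * V b = - ∑ a ∈ A, (F a : ℂ) * V (E * a) := by
    rw [sum_congr rfl hB1, sum_neg_distrib]
    congr 1
    apply sum_fiberwise_of_maps_to
    intro a ha
    rw [hA, mem_filter] at ha
    rw [hB, mem_filter]
    exact ⟨mem_univ _, (hE.order_pn hp hpn ha.2).1⟩
  have h1 := hV1 F hT
  rw [hsplit, hB2] at h1
  have h2 : ((p : ℂ) - 1) * ∑ a ∈ A, (F a : ℂ) * V a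
      = (χ (p : ZMod n) - 1) * ∑ a ∈ A, (F a : ℂ) * V (E * a) := by
    rw [mul_sum, mul_sum]
    refine sum_congr rfl fun a ha => ?_
    rw [hA, mem_filter] at ha
    have h3 := V_val hp hpm hE hpn hn1 hV1 hVn hV2 ha.2
    linear_combination (F a : ℂ) * h3
  have h3 : (χ (p : ZMod n) - p) * ∑ a ∈ A, (F a : ℂ) * V (E * a) = 0 := by
    linear_combination ((p : ℂ) - 1) * h1 - h2
  have h4 : χ (p : ZMod n) - p ≠ 0 := by
    intro h
    have h5 : ‖χ (p : ZMod n)‖ ≤ 1 := DirichletCharacter.norm_le_one χ _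
    rw [sub_eq_zero.mp h, Complex.norm_natCast] at h5
    have := hp.two_le
    have h6 : (2 : ℝ) ≤ p := by exact_mod_cast this
    linarith
  have h5 := (mul_eq_zero.mp h3).resolve_left h4
  -- back to units
  have hunit : ∀ u : (ZMod (p * n))ˣ, V (E * jj hf (u : ZMod (p * n)))
      = χ (((u : ZMod (p * n)).val : ℕ) : ZMod n) * V (E * jj hf 1) := by
    intro u
    obtain ⟨s, hs⟩ := ZMod.unitsMap_surjective hf u
    have h6 : jj hf (u : ZMod (p * n)) = (s : ZMod m) * jj hf 1 := by
      rw [jj_mul, mul_one, ← hs, ZMod.unitsMap_val]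
      rfl
    have h7 : ((ZMod.unitsMap hn s : (ZMod n)ˣ) : ZMod n)
        = (((u : ZMod (p * n)).val : ℕ) : ZMod n) := by
      have e1 : ZMod.unitsMap hn s = ZMod.unitsMap (Dvd.intro_left p rfl) u := by
        rw [← hs, ← MonoidHom.comp_apply, ZMod.unitsMap_comp]
      rw [e1, ZMod.unitsMap_val]
      exact ZMod.cast_eq_val _
    rw [h6, mul_left_comm, hV2, h7]
  have h6 : ∑ a ∈ A, (F a : ℂ) * V (E * a) = ∑ u : (ZMod (p * n))ˣ,
      (F (jj hf (u : ZMod (p * n))) : ℂ) * V (E * jj hf (u : ZMod (p * n))) := by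
    symm
    refine sum_bij (fun u _ => jj hf ((u : (ZMod (p * n))ˣ) : ZMod (p * n))) ?_ ?_ ?_ ?_
    · intro u _
      rw [hA, mem_filter]
      exact ⟨mem_univ _, addOrderOf_unit hf u⟩
    · intro u _ v _ h
      exact Units.ext (jj_injective hf h)
    · intro a ha
      rw [hA, mem_filter] at ha
      obtain ⟨u, hu⟩ := exists_unit_of_order hf ha.2
      exact ⟨u, mem_univ _, hu⟩
    · intro u _
      rfl
  have h7 : V (E * jj hf 1) ≠ 0 := by
    have h8 : addOrderOf (E * jj hf (1 : ZMod (p * n))) = n := by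
      refine (hE.order_pn hp hpn ?_).1
      have := addOrderOf_unit hf 1
      rwa [Units.val_one] at this
    obtain ⟨w, hw⟩ := exists_unit_of_order hn h8
    obtain ⟨t, ht⟩ := ZMod.unitsMap_surjective hn w
    have h9 : E * jj hf 1 = (t : ZMod m) * jj hn 1 := by
      rw [← hw, jj_mul hn (t : ZMod m) 1, mul_one, ← ht, ZMod.unitsMap_val]
      rfl
    rw [h9, hV2, ht]
    refine mul_ne_zero ?_ hV4
    rw [← MulChar.coe_toUnitHom]
    exact Units.ne_zero _
  rw [h6] at h5
  simp_rw [hunit] at h5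
  have h8 : V (E * jj hf 1) * ∑ u : (ZMod (p * n))ˣ, χ (((u : ZMod (p * n)).val : ℕ) : ZMod n)
      * (F (jj hf (u : ZMod (p * n))) : ℂ) = 0 := by
    rw [← h5, mul_sum]
    refine sum_congr rfl fun u _ => ?_
    ring
  exact (mul_eq_zero.mp h8).resolve_left h7

end Pool.Agent.Lib.MP_938ce2_ag_sc
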