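import Pool.Agent.Lib.MP_938ce2_ag_sc.Char
import Pool.Agent.Lib.MP_938ce2_ag_h99.IntSplit

/-!
Odd functions with the Tate condition whose sums over the cosets of the `p`-part vanish, `p` an odd
prime, are combinations of relations.
-/

set_option autoImplicit false
set_option linter.unusedSectionVars false

open Finset

namespace Pool.Agent.Lib.MP_938ce2_ag_sc

open Pool.Agent.Lib.MP_938ce2_ag_h99

variable {m : ℕ} [NeZero m] {p : ℕ} {E : ZMod m}

lemma char_sum_p' {f n : ℕ} [NeZero f] [NeZero n] (hfn : f = p * n) (hf : f ∣ m)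
    {χ : DirichletCharacter ℂ n} (hp : p.Prime) (hE : Idem p E) (hpn : ¬ p ∣ n)
    (hχ : χ.IsPrimitive) (hod : χ.Odd) {F : ZMod m → ℤ}
    (hT : TateF F) (h0 : push E F = 0) (hs : ∀ a, F a ≠ 0 → addOrderOf a ≤ f) :
    ∑ u : (ZMod f)ˣ, χ (((u : ZMod f).val : ℕ) : ZMod n)
      * (F (jj hf (u : ZMod f)) : ℂ) = 0 := by
  subst hfn
  exact char_sum_p hp hE hpn hf hχ hod hT h0 hs

lemma char_sum_even {f : ℕ} [NeZero f] (hf : f ∣ m) {χ : DirichletCharacter ℂ f} (hev : χ.Even)
    {F : ZMod m → ℤ} (ho : OddF F) :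
    ∑ u : (ZMod f)ˣ, χ (u : ZMod f) * (F (jj hf (u : ZMod f)) : ℂ) = 0 := by
  set S := ∑ u : (ZMod f)ˣ, χ (u : ZMod f) * (F (jj hf (u : ZMod f)) : ℂ) with hS
  have h1 : S = -S := by
    conv_lhs => rw [hS]
    rw [hS, ← sum_neg_distrib]
    refine Fintype.sum_equiv (Equiv.neg _) _ _ fun u => ?_
    have e1 : jj hf (-(u : ZMod f)) = - jj hf (u : ZMod f) := map_neg _ _
    rw [Equiv.neg_apply, Units.val_neg, e1, ho, hev.eval_neg]
    push_cast
    ring
  have h2 : (2 : ℂ) * S = 0 := by linear_combination h1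
  exact (mul_eq_zero.mp h2).resolve_left two_ne_zero

/-- the Fourier coefficients at the top level -/
theorem char_all {f : ℕ} [NeZero f] (hf : f ∣ m) (hpf : p ∣ f) (hp : p.Prime) (hE : Idem p E)
    {F : ZMod m → ℤ} (ho : OddF F) (hT : TateF F) (h0 : push E F = 0)
    (hs : ∀ a, F a ≠ 0 → addOrderOf a ≤ f) (χ : DirichletCharacter ℂ f)
    (hχ : ∀ q ∈ (f / p).primeFactors, ∃ k ∈ Kp f q, χ ((k : (ZMod f)ˣ) : ZMod f) ≠ 1) :
    ∑ u : (ZMod f)ˣ, χ (u : ZMod f) * (F (jj hf (u : ZMod f)) : ℂ) = 0 := by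
  have hf0 : f ≠ 0 := NeZero.ne f
  have hfp0 : f / p ≠ 0 := (Nat.div_pos (Nat.le_of_dvd (Nat.pos_of_ne_zero hf0) hpf) hp.pos).ne'
  have hfe : p * (f / p) = f := Nat.mul_div_cancel' hpf
  by_cases h : ∃ k ∈ Kp f p, χ ((k : (ZMod f)ˣ) : ZMod f) ≠ 1
  · apply char_sum_eq_zero hf F ho hT (sup_of_le hs) χ
    apply isPrimitive_of_forall
    intro q hq hqf
    rw [← hfe] at hqf
    rcases (Nat.Prime.dvd_mul hq).mp hqf with h1 | h1
    · rw [(Nat.prime_dvd_prime_iff_eq hq hp).mp h1]
      exact h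
    · exact hχ q (Nat.mem_primeFactors.mpr ⟨hq, h1, hfp0⟩)
  · push Not at h
    have hpn : ¬ p ∣ f / p := by
      intro h1
      obtain ⟨k, hk, hk1⟩ := hχ p (Nat.mem_primeFactors.mpr ⟨hp, h1, hfp0⟩)
      exact hk1 (h k hk)
    have hdiv : ∀ q, q.Prime → q ∣ f → (χ.conductor ∣ f / q ↔
        ∀ k ∈ Kp f q, χ ((k : (ZMod f)ˣ) : ZMod f) = 1) := by
      intro q hq hqf
      rw [← DirichletCharacter.mem_conductorSet_iff_conductor_dvd χ (Nat.div_dvd_of_dvd hqf),
        DirichletCharacter.mem_conductorSet_iff,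
        DirichletCharacter.factorsThrough_iff_ker_unitsMap (Nat.div_dvd_of_dvd hqf),
        ← Kp_eq_ker hqf]
      constructor
      · intro h1 k hk
        have := h1 hk
        rw [MonoidHom.mem_ker] at this
        rw [← MulChar.coe_toUnitHom, this]
        rfl
      · intro h1 k hk
        rw [MonoidHom.mem_ker]
        apply Units.ext
        rw [MulChar.coe_toUnitHom]
        exact h1 k hk
    have hcond : f = p * χ.conductor := by
      obtain ⟨e, he⟩ := (hdiv p hp hpf).mpr h
      have he1 : e = 1 := by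
        by_contra hne
        obtain ⟨q, hq, e', rfl⟩ := Nat.exists_prime_and_dvd hne
        have hqn : q ∣ f / p := he ▸ Dvd.intro_left _ (by ring_nf : χ.conductor * e' * q = _)
        have hqf : q ∣ f := hqn.trans (Nat.div_dvd_of_dvd hpf)
        obtain ⟨k, hk, hk1⟩ := hχ q (Nat.mem_primeFactors.mpr ⟨hq, hqn, hfp0⟩)
        apply hk1
        refine (hdiv q hq hqf).mp ?_ k hk
        have h2 : f = q * (χ.conductor * (e' * p)) := by
          calc f = p * (f / p) := hfe.symm
            _ = p * (χ.conductor * (q * e')) := by rw [he]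
            _ = _ := by ring
        rw [Nat.div_eq_of_eq_mul_right hq.pos h2]
        exact Dvd.intro _ rfl
      rw [he1, mul_one] at he
      rw [← he, hfe]
    haveI : NeZero χ.conductor := ⟨χ.conductor_ne_zero⟩
    have hpc : ¬ p ∣ χ.conductor := by
      have : f / p = χ.conductor := by
        conv_lhs => rw [hcond]
        exact Nat.mul_div_cancel_left _ hp.pos
      rwa [← this]
    rcases χ.even_or_odd with hev | hod
    · exact char_sum_even hf hev ho
    · have hod' : χ.primitiveCharacter.Odd := by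
        have h1 := χ.primitiveCharacter_apply_of_isCoprime (a := -1) (isCoprime_one_left.neg_left)
        have h2 : χ (-1) = -1 := hod
        push_cast at h1
        show χ.primitiveCharacter (-1) = -1
        rw [h1, h2]
      have h3 := char_sum_p' hcond hf hp hE hpc χ.primitiveCharacter_isPrimitive hod' hT h0 hs
      rw [← h3]
      refine sum_congr rfl fun u _ => ?_
      have h4 := χ.primitiveCharacter_apply_of_isCoprime (a := ((u : ZMod f).val : ℤ))
        (Nat.isCoprime_iff_coprime.mpr (ZMod.val_coe_unit_coprime u))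
      rw [Int.cast_natCast, Int.cast_natCast, ZMod.natCast_zmod_val] at h4
      rw [h4]

/-- mixed differences at the top level, without `p` if `p` divides `f` exactly once -/
theorem MD_core {f : ℕ} [NeZero f] (hf : f ∣ m) (hpf : p ∣ f) (hp : p.Prime) (hE : Idem p E)
    {F : ZMod m → ℤ} (ho : OddF F) (hT : TateF F) (h0 : push E F = 0)
    (hs : ∀ a, F a ≠ 0 → addOrderOf a ≤ f) :
    MD ((f / p).primeFactors.toList.map (Kp f)) (fun u : (ZMod f)ˣ => F (jj hf (u : ZMod f))) := by
  apply MD_of_char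
  intro χ hχ
  refine char_all hf hpf hp hE ho hT h0 hs χ fun q hq => ?_
  exact hχ (Kp f q) (List.mem_map.mpr ⟨q, Finset.mem_toList.mpr hq, rfl⟩)

/-- one step of the descent -/
theorem step {f : ℕ} [NeZero f] (hf : f ∣ m) (hpf : p ∣ f) (hp : p.Prime) (hp2 : p ≠ 2)
    (hE : Idem p E) {F : ZMod m → ℤ} (ho : OddF F) (hT : TateF F) (h0 : push E F = 0)
    (hs : ∀ a, F a ≠ 0 → addOrderOf a ≤ f) :
    ∃ F' : ZMod m → ℤ, F - F' ∈ relSub m ∧ OddF F' ∧ TateF F' ∧ push E F' = 0 ∧
      ∀ a, F' a ≠ 0 → addOrderOf a < f := by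
  have hf0 : f ≠ 0 := NeZero.ne f
  have hfp0 : f / p ≠ 0 := (Nat.div_pos (Nat.le_of_dvd (Nat.pos_of_ne_zero hf0) hpf) hp.pos).ne'
  have hfe : p * (f / p) = f := Nat.mul_div_cancel' hpf
  set ps := (f / p).primeFactors.toList with hps
  have hmem : ∀ q ∈ ps, q.Prime ∧ q ∣ f / p := by
    intro q hq
    rw [hps, Finset.mem_toList] at hq
    exact ⟨Nat.prime_of_mem_primeFactors hq, Nat.dvd_of_mem_primeFactors hq⟩
  have hmem' : ∀ q ∈ ps, q.Prime ∧ q ∣ f := fun q hq =>
    ⟨(hmem q hq).1, (hmem q hq).2.trans (Nat.div_dvd_of_dvd hpf)⟩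
  have hpq : ∀ q ∈ ps, p ∣ f / q := by
    intro q hq
    obtain ⟨e, he⟩ := (hmem q hq).2
    have h1 : f = q * (p * e) := by
      rw [← hfe, he]
      ring
    rw [Nat.div_eq_of_eq_mul_right (hmem q hq).1.pos h1]
    exact Dvd.intro _ rfl
  have hnd : ps.Nodup := Finset.nodup_toList _
  have hI := indep_Kp ps hmem' hnd
  have hc : (-1 : (ZMod f)ˣ) ∉ spanL (ps.map (Kp f)) := by
    intro h
    have h1 := spanL_le_stab (f := f) (f / p) ps (fun q hq => (hmem q hq).2) h
    rw [mem_stab, Units.val_neg, Units.val_one, neg_one_mul] at h1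
    have h2 : ((2 * (f / p) : ℕ) : ZMod f) = 0 := by
      push_cast
      linear_combination -h1
    rw [ZMod.natCast_eq_zero_iff] at h2
    conv_lhs at h2 => rw [← hfe]
    have h3 : p ∣ 2 := Nat.dvd_of_mul_dvd_mul_right (Nat.pos_of_ne_zero hfp0) h2
    exact hp2 ((Nat.prime_dvd_prime_iff_eq hp Nat.prime_two).mp h3)
  have hMD := MD_core hf hpf hp hE ho hT h0 hs
  have hodd : ∀ x : (ZMod f)ˣ, F (jj hf (((-1 * x : (ZMod f)ˣ)) : ZMod f))
      = - F (jj hf (x : ZMod f)) := by
    intro x
    have e1 : jj hf (-(x : ZMod f)) = - jj hf (x : ZMod f) := map_neg _ _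
    rw [neg_one_mul, Units.val_neg, e1, ho]
  obtain ⟨G, hG1, hG2, hG3⟩ := int_split (-1 : (ZMod f)ˣ) (by simp) (Kp f) ps hnd hI hc
    (fun u : (ZMod f)ˣ => F (jj hf (u : ZMod f))) hMD hodd
  have hG3' : ∀ q ∈ ps, ∀ u, G q ((-1) * u) = - G q u := hG3
  set g : ℕ → ZMod m → ℤ := fun q => gOf hf q (G q) with hg
  set h : ℕ → ZMod m → ℤ := fun q => g q - push E (g q) with hh
  have hgo : ∀ q ∈ ps, OddF (g q) := fun q hq => gOf_odd hf (hG1 q hq) (hG3' q hq)
  have hgord : ∀ q ∈ ps, ∀ a, g q a ≠ 0 → addOrderOf a = f / q := fun q hq a ha =>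
    gOf_order hf (hmem q hq).1.ne_zero (hmem' q hq).2 ha
  have hho : ∀ q ∈ ps, OddF (h q) := fun q hq => (hgo q hq).sub (push_odd E (hgo q hq))
  have hhs : ∀ q ∈ ps, ∀ a, h q a ≠ 0 → ∃ b, a = (q : ZMod m) * b := by
    intro q hq a ha
    by_cases h1 : g q a = 0
    · have h2 : push E (g q) a ≠ 0 := by
        intro h2
        apply ha
        simp only [hh, Pi.sub_apply, h1, h2, sub_zero]
      obtain ⟨b, hb, hgb⟩ := push_ne_zero h2
      obtain ⟨u, hu⟩ := gOf_ne_zero hf hgb
      exact ⟨E * jj hf (u : ZMod f), by rw [← hb, hu]; ring⟩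
    · obtain ⟨u, hu⟩ := gOf_ne_zero hf h1
      exact ⟨_, hu⟩
  have hhd : ∀ q ∈ ps, ∀ a, h q a ≠ 0 → addOrderOf a ∣ f / q := by
    intro q hq a ha
    by_cases h1 : g q a = 0
    · have h2 : push E (g q) a ≠ 0 := by
        intro h2
        apply ha
        simp only [hh, Pi.sub_apply, h1, h2, sub_zero]
      obtain ⟨b, hb, hgb⟩ := push_ne_zero h2
      rw [← hgord q hq b hgb, ← hb]
      exact hE.dvd b
    · rw [hgord q hq a h1]
  have hpush : ∀ q ∈ ps, push E (h q) = 0 := by
    intro q _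
    simp only [hh]
    rw [push_sub, push_push hE.idem, sub_self]
  have hrel : ∀ q ∈ ps, rel q (h q) ∈ relSub m := by
    intro q hq
    apply AddSubgroup.subset_closure
    exact ⟨q, h q, (hmem q hq).1, (hmem' q hq).2.trans hf, hho q hq, hhs q hq, rfl⟩
  set r : ZMod m → ℤ := (ps.map fun q => rel q (h q)).sum with hr
  have hrsub : r ∈ relSub m := by
    rw [hr]
    apply AddSubgroup.list_sum_mem
    intro x hx
    obtain ⟨q, hq, rfl⟩ := List.mem_map.mp hx
    exact hrel q hq
  have hro : OddF r := by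
    apply OddF_list_sum
    intro x hx
    obtain ⟨q, hq, rfl⟩ := List.mem_map.mp hx
    exact (hho q hq).rel q
  have hrpush : push E r = 0 := by
    have key : ∀ L : List ℕ, (∀ q ∈ L, q ∈ ps) →
        push E ((L.map fun q => rel q (h q)).sum) = 0 := by
      intro L
      induction L with
      | nil => intro _; exact push_zero E
      | cons q L ih =>
        intro hL
        rw [List.map_cons, List.sum_cons, push_add, ih (fun x hx => hL x (List.mem_cons_of_mem _ hx)),
          push_rel hE.idem (hhs q (hL q List.mem_cons_self)) (hpush q (hL q List.mem_cons_self)),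
          add_zero]
    exact key ps fun _ h => h
  have hrval : ∀ u : (ZMod f)ˣ, r (jj hf (u : ZMod f)) = F (jj hf (u : ZMod f)) := by
    intro u
    have h1 : r (jj hf (u : ZMod f)) = (ps.map fun q => rel q (h q) (jj hf (u : ZMod f))).sum := by
      rw [hr]
      exact list_sum_apply ps (fun q => rel q (h q)) _
    rw [h1, hG2 u]
    congr 1
    apply List.map_congr_left
    intro q hq
    have hord : addOrderOf (jj hf (u : ZMod f)) = f := addOrderOf_unit hf u
    have hqf := (hmem' q hq).2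
    have hord2 : addOrderOf ((q : ZMod m) * jj hf (u : ZMod f)) = f / q := by
      rw [addOrderOf_natCast_mul (hmem q hq).1.ne_zero (by rw [hord]; exact hqf), hord]
    have e1 : g q ((q : ZMod m) * jj hf (u : ZMod f)) = G q u := gOf_apply hf (hG1 q hq) u
    have hpz : ∀ a : ZMod m, p ∣ addOrderOf a → push E (g q) a = 0 := by
      intro a ha
      by_contra hne
      obtain ⟨b, hb, -⟩ := push_ne_zero hne
      rw [← hb] at ha
      exact hE.cop b ha
    have e2 : push E (g q) ((q : ZMod m) * jj hf (u : ZMod f)) = 0 :=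
      hpz _ (by rw [hord2]; exact hpq q hq)
    have e3 : push E (g q) (jj hf (u : ZMod f)) = 0 := hpz _ (by rw [hord]; exact hpf)
    have e4 : g q (jj hf (u : ZMod f)) = 0 := by
      by_contra hne
      have h2 := hgord q hq _ hne
      rw [hord] at h2
      have h3 : f / q < f := Nat.div_lt_self (Nat.pos_of_ne_zero hf0) (hmem q hq).1.one_lt
      omega
    simp only [rel, hh, Pi.sub_apply, e1, e2, e3, e4, sub_zero]
  have hrord : ∀ a, r a ≠ 0 → addOrderOf a ≤ f := by
    intro a ha
    have h1 : r a = (ps.map fun q => rel q (h q) a).sum := by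
      rw [hr]
      exact list_sum_apply ps (fun q => rel q (h q)) _
    rw [h1] at ha
    have h2 : ∃ q ∈ ps, rel q (h q) a ≠ 0 := by
      by_contra hno
      push Not at hno
      apply ha
      apply List.sum_eq_zero
      intro x hx
      obtain ⟨q, hq, rfl⟩ := List.mem_map.mp hx
      exact hno q hq
    obtain ⟨q, hq, h3⟩ := h2
    have hqf := (hmem' q hq).2
    apply Nat.le_of_dvd (Nat.pos_of_ne_zero hf0)
    by_cases h4 : h q a = 0
    · have h5 : h q ((q : ZMod m) * a) ≠ 0 := by
        intro h5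
        apply h3
        simp only [rel, h4, h5, sub_zero]
      have h6 := hhd q hq _ h5
      rw [addOrderOf_dvd_iff_nsmul_eq_zero, nsmul_eq_mul] at h6 ⊢
      have h7 : (f : ZMod m) = ((f / q : ℕ) : ZMod m) * (q : ZMod m) := by
        rw [← Nat.cast_mul, Nat.div_mul_cancel hqf]
      rw [h7, mul_assoc]
      exact h6
    · exact (hhd q hq _ h4).trans (Nat.div_dvd_of_dvd hqf)
  refine ⟨F - r, by rw [sub_sub_cancel]; exact hrsub, ho.sub hro,
    hT.sub (TateF_of_mem_relSub hrsub), by rw [push_sub, h0, hrpush, sub_zero], ?_⟩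
  intro a ha
  have hle : addOrderOf a ≤ f := by
    by_cases h1 : F a = 0
    · apply hrord
      intro h2
      apply ha
      rw [Pi.sub_apply, h1, h2, sub_zero]
    · exact hs a h1
  refine lt_of_le_of_ne hle fun heq => ?_
  obtain ⟨u, hu⟩ := exists_unit_of_order hf heq
  apply ha
  rw [Pi.sub_apply, ← hu, hrval, sub_self]

/-- Odd functions with the Tate condition and vanishing sums over the cosets of the `p`-part are
combinations of relations. -/
theorem core (hp : p.Prime) (hp2 : p ≠ 2) (hE : Idem p E) : ∀ (N : ℕ) {F : ZMod m → ℤ}, OddF F →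
    TateF F → push E F = 0 → (∀ a, F a ≠ 0 → addOrderOf a ≤ N) → F ∈ relSub m := by
  intro N
  induction N with
  | zero =>
    intro F _ _ _ hs
    have : F = 0 := by
      funext a
      by_contra h
      have h1 := hs a h
      have h2 := addOrderOf_pos a
      omega
    rw [this]
    exact AddSubgroup.zero_mem _
  | succ N ih =>
    intro F ho hT h0 hs
    by_cases hex : ∃ a, F a ≠ 0 ∧ addOrderOf a = N + 1
    · obtain ⟨a, hFa, hord⟩ := hex
      have hf : N + 1 ∣ m := hord ▸ addOrderOf_dvd_m a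
      by_cases hpf : p ∣ N + 1
      · obtain ⟨F', h1, h2, h3, h4, h5⟩ := step hf hpf hp hp2 hE ho hT h0 hs
        have h6 := ih h2 h3 h4 fun b hb => Nat.lt_succ_iff.mp (h5 b hb)
        have h7 := (relSub m).add_mem h1 h6
        rwa [sub_add_cancel] at h7
      · exfalso
        have h1 := hE.order_le hp h0 hs (a := a) (by rw [hord]; exact hpf) hFa
        rw [hord] at h1
        have := hp.two_le
        nlinarith
    · push Not at hex
      apply ih ho hT h0
      intro a ha
      have h1 := hs a ha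
      have h2 := hex a ha
      omega

end Pool.Agent.Lib.MP_938ce2_ag_sc
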