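import Pool.Agent.Lib.MP_938ce2_ag_sc.Avg
import Pool.Agent.Lib.MP_938ce2_ag_h6.Lift

/-!
Tate characters of general cyclic covers of the line.
-/

set_option autoImplicit false
set_option linter.unusedSectionVars false

open Finset

namespace Pool.Agent.Lib.MP_938ce2_ag_sc

open Pool.Agent.Lib.MP_938ce2_ag_h99
open Pool.Agent.Lib.MP_938ce2_ag_h6 (oddPart oddPart_add oddPart_zero oddPart_odd od
  oddPart_singleton sum_oddPart_mul oddPart_lift_apply oddPart_lift_of_forall_ne od_odd)

variable {m M : ℕ} [NeZero m] [NeZero M]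

lemma oddPart_single (c : ZMod m) : oddPart ({c} : Multiset (ZMod m)) = od c := by
  funext x
  exact oddPart_singleton c x

lemma oddPart_cons (c : ZMod m) (s : Multiset (ZMod m)) :
    oddPart (c ::ₘ s) = od c + oddPart s := by
  rw [← Multiset.singleton_add, oddPart_add, oddPart_single]

lemma push_od (x c : ZMod m) : push x (od c) = od (x * c) := by
  funext b
  have h1 : ∀ e : ZMod m, ∑ a ∈ univ.filter (fun a : ZMod m => x * a = b),
      (if a = e then (1 : ℤ) else 0) = if b = x * e then 1 else 0 := by
    intro e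
    rw [sum_ite_eq']
    have : (e ∈ univ.filter (fun a : ZMod m => x * a = b)) ↔ b = x * e := by
      rw [mem_filter]
      exact ⟨fun h => h.2.symm, fun h => ⟨mem_univ _, h.symm⟩⟩
    rw [if_congr this rfl rfl]
  unfold push od
  rw [sum_sub_distrib, h1, h1, mul_neg]

lemma oddPart_map_mul (x : ZMod m) (s : Multiset (ZMod m)) :
    oddPart (s.map fun c => x * c) = push x (oddPart s) := by
  induction s using Multiset.induction_on with
  | empty => rw [Multiset.map_zero, oddPart_zero, push_zero]
  | cons c s ih => rw [Multiset.map_cons, oddPart_cons, ih, oddPart_cons, push_add, push_od]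

lemma sum_push (x : ZMod m) (F φ : ZMod m → ℤ) :
    ∑ b, push x F b * φ b = ∑ a, F a * φ (x * a) := by
  have h3 : ∑ a, F a * φ (x * a)
      = ∑ b, ∑ a ∈ univ.filter (fun a : ZMod m => x * a = b), F a * φ (x * a) := by
    symm
    exact sum_fiberwise_of_maps_to (fun _ _ => mem_univ _) _
  rw [h3]
  refine sum_congr rfl fun b _ => ?_
  unfold push
  rw [sum_mul]
  refine sum_congr rfl fun a ha => ?_
  rw [mem_filter] at ha
  rw [ha.2]

/-- the Tate condition at a higher level -/
lemma tate_lift (hf : m ∣ M) {s : Multiset (ZMod m)} (h : TateF (oddPart s)) :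
    TateF (oddPart (s.map (jj hf))) := by
  intro t
  have h1 := h (ZMod.unitsMap hf t)
  rw [sum_oddPart_mul s (fun a => ((((ZMod.unitsMap hf t : (ZMod m)ˣ) : ZMod m) * a).val : ℤ))]
    at h1
  rw [sum_oddPart_mul (s.map (jj hf)) fun a => (((t : ZMod M) * a).val : ℤ), Multiset.map_map]
  have h2 : ∀ c : ZMod m, (((t : ZMod M) * jj hf c).val : ℤ)
      = ((M / m : ℕ) : ℤ) * ((((ZMod.unitsMap hf t : (ZMod m)ˣ) : ZMod m) * c).val : ℤ) := by
    intro c
    rw [jj_mul, jj_val, Nat.cast_mul]
    rfl
  have h3 : ((fun a : ZMod M => (((t : ZMod M) * a).val : ℤ) - (((t : ZMod M) * -a).val : ℤ))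
      ∘ (jj hf)) = fun c : ZMod m => ((M / m : ℕ) : ℤ) *
        (((((ZMod.unitsMap hf t : (ZMod m)ˣ) : ZMod m) * c).val : ℤ)
          - ((((ZMod.unitsMap hf t : (ZMod m)ˣ) : ZMod m) * -c).val : ℤ)) := by
    funext c
    simp only [Function.comp_apply]
    rw [← map_neg, h2, h2, mul_sub]
  rw [h3, Multiset.sum_map_mul_left, h1, mul_zero]

lemma oddPart_lift_congr (hf : m ∣ M) {s s' : Multiset (ZMod m)} (h : oddPart s = oddPart s') :
    oddPart (s.map (jj hf)) = oddPart (s'.map (jj hf)) := by
  funext x
  by_cases hx : ∃ y, jj hf y = x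
  · obtain ⟨y, rfl⟩ := hx
    rw [oddPart_lift_apply, oddPart_lift_apply, h]
  · push Not at hx
    rw [oddPart_lift_of_forall_ne hf s hx, oddPart_lift_of_forall_ne hf s' hx]

lemma od_zero : od (0 : ZMod m) = 0 := by
  funext x
  unfold od
  rw [neg_zero, sub_self]
  rfl

lemma oddPart_filter (s : Multiset (ZMod m)) : oddPart (s.filter (· ≠ 0)) = oddPart s := by
  induction s using Multiset.induction_on with
  | empty => rfl
  | cons c s ih =>
    by_cases hc : c = 0
    · rw [Multiset.filter_cons_of_neg (p := (· ≠ 0)) s (by simpa using hc), oddPart_cons, hc,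
        od_zero, zero_add, ih]
    · rw [Multiset.filter_cons_of_pos (p := (· ≠ 0)) s hc, oddPart_cons, oddPart_cons, ih]

/-- the character attached to the exponents `b` and the multiset `T` -/
def weil {m n : ℕ} (b : Fin n → ZMod m) (T : Multiset (ZMod m)) : Multiset (ZMod m) :=
  (T.bind fun a => univ.val.map fun i => a * b i).filter (· ≠ 0)

lemma oddPart_univ_map {n : ℕ} (c : Fin n → ZMod m) :
    oddPart ((univ : Finset (Fin n)).val.map c) = ∑ i, od (c i) := by
  have h : ∀ s : Finset (Fin n), oddPart (s.val.map c) = ∑ i ∈ s, od (c i) := by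
    classical
    intro s
    induction s using Finset.induction_on with
    | empty => rfl
    | insert i s hi ih =>
      rw [insert_val_of_notMem hi, Multiset.map_cons, oddPart_cons, ih, sum_insert hi]
  exact h univ

lemma push_sum_left {ι : Type*} (s : Finset ι) (x : ZMod m) (F : ι → ZMod m → ℤ) :
    push x (∑ i ∈ s, F i) = ∑ i ∈ s, push x (F i) := by
  classical
  induction s using Finset.induction_on with
  | empty => rw [sum_empty, sum_empty, push_zero]
  | insert i s hi ih => rw [sum_insert hi, sum_insert hi, push_add, ih]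

lemma sum_push_add {n : ℕ} (β : Fin n → ZMod m) (F G : ZMod m → ℤ) :
    ∑ i, push (β i) (F + G) = ∑ i, push (β i) F + ∑ i, push (β i) G := by
  rw [← sum_add_distrib]
  exact sum_congr rfl fun i _ => push_add _ _ _

lemma oddPart_weil {n : ℕ} (b : Fin n → ZMod m) (T : Multiset (ZMod m)) :
    oddPart (weil b T) = ∑ i, push (b i) (oddPart T) := by
  unfold weil
  rw [oddPart_filter]
  induction T using Multiset.induction_on with
  | empty =>
    rw [Multiset.zero_bind, oddPart_zero]
    symm
    exact sum_eq_zero fun i _ => push_zero _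
  | cons a T ih =>
    rw [Multiset.cons_bind, oddPart_add, ih, oddPart_univ_map, oddPart_cons, sum_push_add]
    congr 1
    exact sum_congr rfl fun i _ => by rw [push_od, mul_comm]

lemma oddPart_weil_lift {n : ℕ} (hf : m ∣ M) (b : Fin n → ZMod m) (β : Fin n → ZMod M)
    (hβ : ∀ i a, jj hf (a * b i) = β i * jj hf a) (T : Multiset (ZMod m)) :
    oddPart ((weil b T).map (jj hf)) = ∑ i, push (β i) (oddPart (T.map (jj hf))) := by
  have h1 : oddPart ((weil b T).map (jj hf))
      = oddPart ((T.bind fun a => univ.val.map fun i => a * b i).map (jj hf)) :=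
    oddPart_lift_congr hf (oddPart_filter _)
  rw [h1]
  induction T using Multiset.induction_on with
  | empty =>
    rw [Multiset.zero_bind, Multiset.map_zero, oddPart_zero]
    symm
    exact sum_eq_zero fun i _ => push_zero _
  | cons a T ih =>
    have h2 := oddPart_lift_congr hf (oddPart_filter (T.bind fun a => univ.val.map fun i => a * b i))
    rw [Multiset.cons_bind, Multiset.map_add, oddPart_add, ih h2, Multiset.map_map,
      oddPart_univ_map, Multiset.map_cons, oddPart_cons, sum_push_add]
    congr 1
    exact sum_congr rfl fun i _ => by rw [Function.comp_apply, hβ, push_od]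

lemma order_lift (hf : m ∣ M) (T : Multiset (ZMod m)) {a : ZMod M}
    (h : oddPart (T.map (jj hf)) a ≠ 0) : addOrderOf a ∣ m := by
  by_contra hno
  apply h
  apply oddPart_lift_of_forall_ne hf T
  rintro y rfl
  apply hno
  rw [addOrderOf_dvd_iff_nsmul_eq_zero, nsmul_eq_mul, natCast_mul_jj, ZMod.natCast_self, zero_mul,
    map_zero]

end Pool.Agent.Lib.MP_938ce2_ag_sc
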