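import Pool.Agent.Lib.MP_938ce2_ag_h99.Peel

/-!
Push-forward along the projection to the part prime to `p`.
-/

set_option autoImplicit false
set_option linter.unusedSectionVars false

open Finset

namespace Pool.Agent.Lib.MP_938ce2_ag_sc

open Pool.Agent.Lib.MP_938ce2_ag_h99

variable {m : ℕ} [NeZero m]

/-- sums over the fibres of multiplication by `E` -/
def push (E : ZMod m) (F : ZMod m → ℤ) : ZMod m → ℤ := fun b =>
  ∑ a ∈ univ.filter (fun a : ZMod m => E * a = b), F a

lemma push_sub (E : ZMod m) (F G : ZMod m → ℤ) : push E (F - G) = push E F - push E G := by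
  funext b
  simp only [push, Pi.sub_apply, sum_sub_distrib]

lemma push_zero (E : ZMod m) : push E 0 = 0 := by
  funext b
  simp [push]

lemma push_add (E : ZMod m) (F G : ZMod m → ℤ) : push E (F + G) = push E F + push E G := by
  funext b
  simp only [push, Pi.add_apply, sum_add_distrib]

lemma push_odd (E : ZMod m) {F : ZMod m → ℤ} (hF : OddF F) : OddF (push E F) := by
  intro b
  simp only [push]
  rw [← sum_neg_distrib]
  refine sum_bij' (fun a _ => -a) (fun a _ => -a) ?_ ?_ ?_ ?_ ?_
  · intro a ha
    rw [mem_filter] at ha ⊢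
    exact ⟨mem_univ _, by rw [mul_neg, ha.2, neg_neg]⟩
  · intro a ha
    rw [mem_filter] at ha ⊢
    exact ⟨mem_univ _, by rw [mul_neg, ha.2]⟩
  · intro a _; exact neg_neg a
  · intro a _; exact neg_neg a
  · intro a _
    rw [hF, neg_neg]

lemma push_ne_zero {E : ZMod m} {F : ZMod m → ℤ} {c : ZMod m} (h : push E F c ≠ 0) :
    ∃ a, E * a = c ∧ F a ≠ 0 := by
  obtain ⟨a, ha, h1⟩ := exists_ne_zero_of_sum_ne_zero h
  exact ⟨a, (mem_filter.mp ha).2, h1⟩

lemma push_push {E : ZMod m} (hE : E * E = E) (F : ZMod m → ℤ) : push E (push E F) = push E F := by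
  funext b
  have h1 : push E F b = ∑ c ∈ univ.filter (fun c : ZMod m => E * c = b),
      ∑ a ∈ (univ.filter (fun a : ZMod m => E * a = b)).filter (fun a => E * a = c), F a := by
    unfold push
    symm
    apply sum_fiberwise_of_maps_to
    intro a ha
    rw [mem_filter] at ha ⊢
    exact ⟨mem_univ _, by rw [← mul_assoc, hE, ha.2]⟩
  rw [h1]
  show ∑ c ∈ univ.filter (fun c : ZMod m => E * c = b), push E F c = _
  refine sum_congr rfl fun c hc => ?_
  rw [mem_filter] at hc
  unfold push
  refine sum_congr ?_ fun _ _ => rfl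
  ext a
  simp only [mem_filter, mem_univ, true_and]
  constructor
  · intro h
    refine ⟨?_, h⟩
    rw [← hc.2, ← h, ← mul_assoc, hE]
  · intro h
    exact h.2

/-- relations at `q` respect functions with vanishing push-forward -/
lemma push_rel {E : ZMod m} (hE : E * E = E) {q : ℕ} {h : ZMod m → ℤ}
    (hs : ∀ a, h a ≠ 0 → ∃ b, a = (q : ZMod m) * b) (h0 : push E h = 0) :
    push E (rel q h) = 0 := by
  classical
  funext b
  have e1 : push E (rel q h) b
      = (∑ a ∈ univ.filter (fun a : ZMod m => E * a = b), h ((q : ZMod m) * a)) - push E h b := by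
    simp only [push, rel, sum_sub_distrib]
  rw [e1, h0, Pi.zero_apply, sub_zero]
  by_cases hb : E * b = b
  · set κ := (univ.filter fun w : ZMod m => E * w = 0 ∧ (q : ZMod m) * w = 0).card with hκ
    have e2 : (∑ a ∈ univ.filter (fun a : ZMod m => E * a = b), h ((q : ZMod m) * a))
        = ∑ c ∈ univ.filter (fun c : ZMod m => E * c = (q : ZMod m) * b),
          ∑ a ∈ (univ.filter (fun a : ZMod m => E * a = b)).filter (fun a => (q : ZMod m) * a = c),
            h ((q : ZMod m) * a) := by
      symm
      apply sum_fiberwise_of_maps_to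
      intro a ha
      rw [mem_filter] at ha ⊢
      refine ⟨mem_univ _, ?_⟩
      rw [← ha.2]
      ring
    rw [e2]
    have e3 : ∀ c ∈ univ.filter (fun c : ZMod m => E * c = (q : ZMod m) * b),
        ∑ a ∈ (univ.filter (fun a : ZMod m => E * a = b)).filter (fun a => (q : ZMod m) * a = c),
            h ((q : ZMod m) * a) = κ * h c := by
      intro c hc
      rw [mem_filter] at hc
      have e4 : ∑ a ∈ (univ.filter (fun a : ZMod m => E * a = b)).filter
          (fun a => (q : ZMod m) * a = c), h ((q : ZMod m) * a)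
          = ((univ.filter (fun a : ZMod m => E * a = b)).filter
            (fun a => (q : ZMod m) * a = c)).card * h c := by
        rw [← nsmul_eq_mul, ← sum_const]
        refine sum_congr rfl fun a ha => ?_
        rw [mem_filter] at ha
        rw [ha.2]
      rw [e4]
      by_cases hc0 : h c = 0
      · rw [hc0, mul_zero, mul_zero]
      · obtain ⟨a0, ha0⟩ := hs c hc0
        have e5 : ((univ.filter (fun a : ZMod m => E * a = b)).filter
            (fun a => (q : ZMod m) * a = c)).card = κ := by
          have hx : E * (b + (1 - E) * a0) = b := by linear_combination hb - a0 * hE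
          have hy : (q : ZMod m) * (b + (1 - E) * a0) = c := by
            linear_combination (E - 1) * ha0 - hc.2
          rw [hκ]
          refine card_bij' (fun a _ => a - (b + (1 - E) * a0)) (fun w _ => w + (b + (1 - E) * a0))
            ?_ ?_ ?_ ?_
          · intro a ha
            simp only [mem_filter, mem_univ, true_and] at ha ⊢
            exact ⟨by rw [mul_sub, ha.1, hx, sub_self], by rw [mul_sub, ha.2, hy, sub_self]⟩
          · intro w hw
            simp only [mem_filter, mem_univ, true_and] at hw ⊢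
            exact ⟨by rw [mul_add, hw.1, hx, zero_add], by rw [mul_add, hw.2, hy, zero_add]⟩
          · intro a _; ring
          · intro w _; ring
        rw [e5]
    rw [sum_congr rfl e3, ← mul_sum]
    have e6 := congrFun h0 ((q : ZMod m) * b)
    simp only [push, Pi.zero_apply] at e6
    rw [e6, mul_zero]
  · apply sum_eq_zero
    intro a ha
    exfalso
    rw [mem_filter] at ha
    apply hb
    rw [← ha.2, ← mul_assoc, hE]

/-- `E` is the idempotent which is the identity on elements of order prime to `p` and zero on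
elements whose order is a power of `p`. -/
structure Idem (p : ℕ) (E : ZMod m) : Prop where
  idem : E * E = E
  fix : ∀ a : ZMod m, ¬ p ∣ addOrderOf a → E * a = a
  cop : ∀ a : ZMod m, ¬ p ∣ addOrderOf (E * a)
  ker : ∀ w : ZMod m, E * w = 0 → ∃ k, addOrderOf w = p ^ k

lemma exists_idem {p : ℕ} (hp : p.Prime) : ∃ E : ZMod m, Idem p E := by
  have hm0 : m ≠ 0 := NeZero.ne m
  set n := m / p ^ (m.factorization p) with hn
  set P := p ^ (m.factorization p) with hP
  have hPn : P * n = m := Nat.ordProj_mul_ordCompl_eq_self m p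
  have hcop : Nat.Coprime P n := Nat.Coprime.pow_left _ (Nat.coprime_ordCompl hp hm0)
  have hpn : ¬ p ∣ n := Nat.not_dvd_ordCompl hp hm0
  have hbez := Nat.gcd_eq_gcd_ab P n
  rw [hcop.gcd_eq_one] at hbez
  have h1 : (1 : ZMod m) = (P : ZMod m) * ((Nat.gcdA P n : ℤ) : ZMod m)
      + (n : ZMod m) * ((Nat.gcdB P n : ℤ) : ZMod m) := by
    have := congrArg (fun z : ℤ => (z : ZMod m)) hbez
    push_cast at this
    exact this
  set x := ((Nat.gcdA P n : ℤ) : ZMod m) with hx
  set y := ((Nat.gcdB P n : ℤ) : ZMod m) with hy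
  have h2 : (P : ZMod m) * (n : ZMod m) = 0 := by
    rw [← Nat.cast_mul, hPn, ZMod.natCast_self]
  have hord : ∀ a : ZMod m, addOrderOf a ∣ n ↔ (n : ZMod m) * a = 0 := by
    intro a
    rw [addOrderOf_dvd_iff_nsmul_eq_zero, nsmul_eq_mul]
  have hfix : ∀ a : ZMod m, (n : ZMod m) * a = 0 → (P : ZMod m) * x * a = a := by
    intro a ha
    linear_combination (-a) * h1 - y * ha
  refine ⟨(P : ZMod m) * x, ?_, ?_, ?_, ?_⟩
  · have := hfix ((P : ZMod m) * x) (by linear_combination x * h2)
    exact this
  · intro a ha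
    apply hfix
    rw [← hord]
    have h3 : addOrderOf a ∣ P * n := by rw [hPn]; exact addOrderOf_dvd_m a
    have h4 : Nat.Coprime (addOrderOf a) P :=
      Nat.Coprime.pow_right _ ((Nat.Prime.coprime_iff_not_dvd hp).mpr ha).symm
    exact h4.dvd_of_dvd_mul_left h3
  · intro a ha
    apply hpn
    refine ha.trans ?_
    rw [hord]
    linear_combination (x * a) * h2
  · intro w hw
    have h3 : addOrderOf w ∣ P := by
      rw [addOrderOf_dvd_iff_nsmul_eq_zero, nsmul_eq_mul]
      have h4 : w = (n : ZMod m) * y * w := by linear_combination w * h1 + hw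
      rw [h4]
      linear_combination (y * w) * h2
    obtain ⟨k, -, hk⟩ := (Nat.dvd_prime_pow hp).mp h3
    exact ⟨k, hk⟩

variable {p : ℕ} {E : ZMod m}

/-- the order of the projection -/
lemma Idem.dvd (_hE : Idem p E) (a : ZMod m) : addOrderOf (E * a) ∣ addOrderOf a := by
  rw [addOrderOf_dvd_iff_nsmul_eq_zero]
  have h1 : (addOrderOf a) • a = 0 := addOrderOf_nsmul_eq_zero a
  rw [nsmul_eq_mul] at h1 ⊢
  linear_combination E * h1

lemma Idem.mul_dvd (hp : p.Prime) (hE : Idem p E) {a : ZMod m} (ha : p ∣ addOrderOf a) :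
    p * addOrderOf (E * a) ∣ addOrderOf a :=
  Nat.Coprime.mul_dvd_of_dvd_of_dvd ((Nat.Prime.coprime_iff_not_dvd hp).mpr (hE.cop a)) ha
    (hE.dvd a)

/-- the order of the sum of an element of order prime to `p` and one killed by `E` -/
lemma Idem.order_add (hp : p.Prime) (hE : Idem p E) {a w : ZMod m} (ha : ¬ p ∣ addOrderOf a)
    (hw : E * w = 0) : addOrderOf (a + w) = addOrderOf a * addOrderOf w := by
  obtain ⟨k, hk⟩ := hE.ker w hw
  apply AddCommute.addOrderOf_add_eq_mul_addOrderOf_of_coprime (AddCommute.all a w)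
  rw [hk]
  exact Nat.Coprime.pow_right _ ((Nat.Prime.coprime_iff_not_dvd hp).mpr ha).symm

/-- elements of order prime to `p` in the support -/
lemma Idem.order_le (hp : p.Prime) (hE : Idem p E) {F : ZMod m → ℤ} (h0 : push E F = 0) {f : ℕ}
    (hs : ∀ a, F a ≠ 0 → addOrderOf a ≤ f) {a : ZMod m} (ha : ¬ p ∣ addOrderOf a)
    (hFa : F a ≠ 0) : p * addOrderOf a ≤ f := by
  classical
  have h1 := congrFun h0 a
  simp only [push, Pi.zero_apply] at h1
  have hmem : a ∈ univ.filter (fun b : ZMod m => E * b = a) := by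
    rw [mem_filter]
    exact ⟨mem_univ _, hE.fix a ha⟩
  rw [← add_sum_erase _ _ hmem] at h1
  have h2 : ∑ b ∈ (univ.filter (fun b : ZMod m => E * b = a)).erase a, F b ≠ 0 := by
    intro h
    rw [h, add_zero] at h1
    exact hFa h1
  obtain ⟨b, hb, hFb⟩ := exists_ne_zero_of_sum_ne_zero h2
  rw [mem_erase, mem_filter] at hb
  have h3 : E * (b - a) = 0 := by rw [mul_sub, hb.2.2, hE.fix a ha, sub_self]
  have h4 := hE.order_add hp ha h3
  rw [add_sub_cancel] at h4
  obtain ⟨k, hk⟩ := hE.ker _ h3
  have hk0 : k ≠ 0 := by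
    rintro rfl
    rw [pow_zero, AddMonoid.addOrderOf_eq_one_iff, sub_eq_zero] at hk
    exact hb.1 hk
  have h5 : p ≤ addOrderOf (b - a) := by
    rw [hk]
    exact Nat.le_self_pow hk0 p
  calc p * addOrderOf a ≤ addOrderOf (b - a) * addOrderOf a := Nat.mul_le_mul_right _ h5
    _ = addOrderOf b := by rw [h4, mul_comm]
    _ ≤ f := hs b hFb

end Pool.Agent.Lib.MP_938ce2_ag_sc
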