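import Pool.Agent.Lib.MP_938ce2_ag_sc.Apply

/-!
Odd functions with the Tate condition: a multiple by a power of two is a combination of relations.
-/

set_option autoImplicit false
set_option linter.unusedSectionVars false

open Finset

namespace Pool.Agent.Lib.MP_938ce2_ag_sc

open Pool.Agent.Lib.MP_938ce2_ag_h99

/-- integral splitting -/
theorem split_int {A : Type*} [CommGroup A] (K : ℕ → Subgroup A) : ∀ ps : List ℕ, ps.Nodup →
    IndepL (ps.map K) → ∀ F : A → ℤ, MD (ps.map K) F →
    ∃ G : ℕ → A → ℤ, (∀ p ∈ ps, ∀ z ∈ K p, ∀ x, G p (z * x) = G p x) ∧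
      (∀ x, F x = (ps.map fun p => G p x).sum) := by
  intro ps
  induction ps with
  | nil =>
    intro _ _ F hF
    refine ⟨fun _ => 0, by simp, ?_⟩
    intro x
    have : F x = 0 := hF x
    simp [this]
  | cons p ps ih =>
    intro hnd hI F hF
    have hpn : p ∉ ps := (List.nodup_cons.mp hnd).1
    set L := ps.map K with hL
    obtain ⟨k, hk1, hk2, hk3⟩ := exists_coord (K p) _ hI.1
    set B : A → ℤ := fun x => F ((k x)⁻¹ * x) with hB
    have hBinv : ∀ z ∈ K p, ∀ x, B (z * x) = B x := by
      intro z hz x
      simp only [hB]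
      rw [hk2 z hz, mul_inv_rev, mul_assoc, inv_mul_cancel_left]
    have hD := split_first hF k hk1 hk3
    obtain ⟨G, hG1, hG2⟩ := ih (List.nodup_cons.mp hnd).2 hI.2 (fun x => F x - B x) hD
    refine ⟨fun r => if r = p then B else G r, ?_, ?_⟩
    · intro r hr z hz x
      by_cases hrp : r = p
      · subst hrp
        simp only [if_true]
        exact hBinv z hz x
      · simp only [hrp, if_false]
        exact hG1 r ((List.mem_cons.mp hr).resolve_left hrp) z hz x
    · intro x
      have h1 := hG2 x
      rw [List.map_cons, List.sum_cons]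
      have h2 : (ps.map fun r => (if r = p then B else G r) x)
          = ps.map fun r => G r x := by
        apply List.map_congr_left
        intro r hr
        have : r ≠ p := fun h => hpn (h ▸ hr)
        simp [this]
      rw [h2, ← h1]
      simp

variable {m : ℕ} [NeZero m]

lemma list_sum_sub {α : Type*} (L : List α) (f g : α → ℤ) :
    (L.map fun x => f x - g x).sum = (L.map f).sum - (L.map g).sum := by
  induction L with
  | nil => simp
  | cons a L ih =>
    rw [List.map_cons, List.sum_cons, ih, List.map_cons, List.sum_cons, List.map_cons,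
      List.sum_cons]
    ring

lemma odd_zsmul (c : ℤ) {F : ZMod m → ℤ} (h : OddF F) : OddF (c • F) := by
  intro a
  simp only [Pi.smul_apply, h a, smul_neg]

lemma tate_zsmul (c : ℤ) {F : ZMod m → ℤ} (h : TateF F) : TateF (c • F) := by
  intro t
  have h1 := h t
  simp only [Pi.smul_apply, smul_eq_mul, mul_assoc]
  rw [← mul_sum, h1, mul_zero]

theorem pow_two_mem : ∀ (N : ℕ) {F : ZMod m → ℤ}, OddF F → TateF F →
    (∀ a, F a ≠ 0 → addOrderOf a ≤ N) → ∃ k : ℕ, (2 ^ k : ℤ) • F ∈ relSub m := by
  intro N
  induction N with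
  | zero =>
    intro F _ _ hs
    have : F = 0 := by
      funext a
      by_contra h
      have h1 := hs a h
      have h2 := addOrderOf_pos a
      omega
    refine ⟨0, ?_⟩
    rw [this, smul_zero]
    exact AddSubgroup.zero_mem _
  | succ N ih =>
    intro F ho hT hs
    by_cases hex : ∃ a, F a ≠ 0 ∧ addOrderOf a = N + 1
    · obtain ⟨a, hFa, hord⟩ := hex
      have hf : N + 1 ∣ m := hord ▸ addOrderOf_dvd_m a
      set f := N + 1 with hfd
      set ps := f.primeFactors.toList with hps
      have hprime : ∀ p ∈ ps, p.Prime ∧ p ∣ f := by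
        intro p hp
        rw [hps, Finset.mem_toList] at hp
        exact ⟨Nat.prime_of_mem_primeFactors hp, Nat.dvd_of_mem_primeFactors hp⟩
      have hnd : ps.Nodup := Finset.nodup_toList _
      have hMD := MD_top hf F ho hT (sup_of_le hs) ps (by
        intro p hp hpf
        rw [hps, Finset.mem_toList]
        exact Nat.mem_primeFactors.mpr ⟨hp, hpf, Nat.succ_ne_zero _⟩)
      obtain ⟨G, hG1, hG2⟩ := split_int (Kp f) ps hnd (indep_Kp ps hprime hnd) _ hMD
      have h2s : ∀ a, ((2 : ℤ) • F) a ≠ 0 → addOrderOf a ≤ f := by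
        intro a ha
        apply hs
        intro h0
        apply ha
        rw [Pi.smul_apply, h0, smul_zero]
      obtain ⟨F', h1, h2, h3, h4, _, _⟩ := peel_le hf ((2 : ℤ) • F) (odd_zsmul 2 ho)
        (tate_zsmul 2 hT) h2s ps hprime (fun p u => G p u - G p ((-1) * u))
        (by
          intro p hp z hz u
          have e : (-1) * (z * u) = z * ((-1) * u) := mul_left_comm _ _ _
          show G p (z * u) - G p ((-1) * (z * u)) = G p u - G p ((-1) * u)
          rw [e, hG1 p hp z hz, hG1 p hp z hz])
        (by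
          intro u
          have e1 : jj hf (-(u : ZMod f)) = - jj hf (u : ZMod f) := map_neg _ _
          have e2 : F (jj hf (u : ZMod f)) = (ps.map fun p => G p u).sum := hG2 u
          have e3 : F (jj hf (((-1) * u : (ZMod f)ˣ) : ZMod f))
            = (ps.map fun p => G p ((-1) * u)).sum := hG2 ((-1) * u)
          rw [neg_one_mul, Units.val_neg, e1, ho, ← neg_one_mul u] at e3
          rw [list_sum_sub, ← e2, ← e3, Pi.smul_apply, smul_eq_mul]
          ring)
        (by
          intro p hp u
          have e : (-1 : (ZMod f)ˣ) * ((-1) * u) = u := by simp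
          show G p ((-1) * u) - G p ((-1) * ((-1) * u)) = -(G p u - G p ((-1) * u))
          rw [e]
          ring)
      obtain ⟨k, hk⟩ := ih h2 h3 fun b hb => Nat.lt_succ_iff.mp (h4 b hb)
      refine ⟨k + 1, ?_⟩
      have h5 := (relSub m).zsmul_mem h1 (2 ^ k : ℤ)
      have h6 := (relSub m).add_mem h5 hk
      rw [← smul_add, sub_add_cancel, ← mul_smul, ← pow_succ] at h6
      exact h6
    · push Not at hex
      apply ih ho hT
      intro a ha
      have h1 := hs a ha
      have h2 := hex a ha
      omega

/-- if an odd multiple is a combination of relations, then so is the function -/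
theorem mem_of_odd_mul {c : ℤ} (hc : Odd c) {F : ZMod m → ℤ} (ho : OddF F) (hT : TateF F)
    (h : c • F ∈ relSub m) : F ∈ relSub m := by
  obtain ⟨k, hk⟩ := pow_two_mem m ho hT fun a _ =>
    Nat.le_of_dvd (Nat.pos_of_ne_zero (NeZero.ne m)) (addOrderOf_dvd_m a)
  have hcop : IsCoprime c (2 ^ k : ℤ) := by
    apply IsCoprime.pow_right
    obtain ⟨j, hj⟩ := hc
    exact ⟨1, -j, by rw [hj]; ring⟩
  obtain ⟨x, y, hxy⟩ := hcop
  have h1 := (relSub m).add_mem ((relSub m).zsmul_mem h x) ((relSub m).zsmul_mem hk y)
  rw [← mul_smul, ← mul_smul, ← add_smul, hxy, one_smul] at h1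
  exact h1

end Pool.Agent.Lib.MP_938ce2_ag_sc
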