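import Pool.Agent.Lib.MP_938ce2_ag_sc.Push

/-!
The functional attached to an odd primitive character, and the vanishing of the Fourier
coefficients at the top level for characters of conductor `f / p`.
-/

set_option autoImplicit false
set_option linter.unusedSectionVars false

open Finset

namespace Pool.Agent.Lib.MP_938ce2_ag_sc

open Pool.Agent.Lib.MP_938ce2_ag_h99

variable {m : ℕ} [NeZero m]

/-- the functional attached to an odd primitive character modulo `n` -/
theorem exists_V {n : ℕ} [NeZero n] (hn : n ∣ m) (χ : DirichletCharacter ℂ n)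
    (hχ : χ.IsPrimitive) (hod : χ.Odd) : ∃ V : ZMod m → ℂ,
      (∀ F : ZMod m → ℤ, TateF F → ∑ a, (F a : ℂ) * V a = 0) ∧
      (∀ (s : (ZMod m)ˣ) (a : ZMod m), V ((s : ZMod m) * a)
        = χ ((ZMod.unitsMap hn s : (ZMod n)ˣ) : ZMod n) * V a) ∧
      (∀ a : ZMod m, ¬ n ∣ addOrderOf a → V a = 0) ∧ V (jj hn 1) ≠ 0 := by
  set χm := DirichletCharacter.changeLevel hn χ with hχm
  have hχm1 : ∀ t : (ZMod m)ˣ, χm (t : ZMod m) = χ ((ZMod.unitsMap hn t : (ZMod n)ˣ) : ZMod n) := by
    intro t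
    rw [hχm, DirichletCharacter.changeLevel_eq_cast_of_dvd]
    rfl
  set V : ZMod m → ℂ := fun a => ∑ t : (ZMod m)ˣ, χm ((t⁻¹ : (ZMod m)ˣ) : ZMod m) *
    ((((t : ZMod m) * a).val : ℕ) : ℂ) with hV
  have hVs : ∀ (s : (ZMod m)ˣ) (a : ZMod m), V ((s : ZMod m) * a) = χm (s : ZMod m) * V a := by
    intro s a
    simp only [hV]
    rw [mul_sum]
    refine Fintype.sum_equiv (Equiv.mulRight s) _ _ fun t => ?_
    have : χm (s : ZMod m) * χm ((s⁻¹ : (ZMod m)ˣ) : ZMod m) = 1 := by
      rw [← map_mul, ← Units.val_mul, mul_inv_cancel, Units.val_one, map_one]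
    rw [Equiv.coe_mulRight, mul_inv_rev, Units.val_mul, map_mul, Units.val_mul,
      mul_assoc (t : ZMod m)]
    linear_combination (-(χm ((t⁻¹ : (ZMod m)ˣ) : ZMod m) *
      ((((t : ZMod m) * (s * a)).val : ℕ) : ℂ))) * this
  refine ⟨V, ?_, ?_, ?_, ?_⟩
  · intro F hT
    have h1 : ∑ a, (F a : ℂ) * V a = ∑ t : (ZMod m)ˣ, χm ((t⁻¹ : (ZMod m)ˣ) : ZMod m) *
        ((∑ a, F a * (((t : ZMod m) * a).val : ℤ) : ℤ) : ℂ) := by
      simp_rw [hV, mul_sum]
      rw [sum_comm]
      refine sum_congr rfl fun t _ => ?_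
      push_cast
      rw [mul_sum]
      refine sum_congr rfl fun a _ => ?_
      ring
    rw [h1]
    apply sum_eq_zero
    intro t _
    rw [hT t]
    simp
  · intro s a
    rw [hVs, hχm1]
  · intro a ha
    by_contra hVa
    have hdv : addOrderOf a ∣ m := addOrderOf_dvd_m a
    have hfac : χm.FactorsThrough (addOrderOf a) := by
      rw [DirichletCharacter.factorsThrough_iff_ker_unitsMap hdv]
      intro s hs
      rw [MonoidHom.mem_ker] at hs ⊢
      obtain ⟨u, hu⟩ := exists_unit_of_order hdv (a := a) rfl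
      have h1 : (s : ZMod m) * a = a := by
        conv_lhs => rw [← hu]
        rw [jj_mul]
        have h2 : ZMod.castHom hdv (ZMod (addOrderOf a)) (s : ZMod m) = 1 := by
          have := congrArg Units.val hs
          rw [ZMod.unitsMap_val] at this
          exact this
        rw [h2, one_mul, hu]
      have h3 := hVs s a
      rw [h1] at h3
      have h4 : χm (s : ZMod m) = 1 := by
        have : (χm (s : ZMod m) - 1) * V a = 0 := by rw [sub_mul, ← h3]; ring
        have := (mul_eq_zero.mp this).resolve_right hVa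
        linear_combination this
      rw [← MulChar.coe_toUnitHom] at h4
      exact Units.ext h4
    have hcd : χm.conductor ∣ addOrderOf a := by
      rw [← DirichletCharacter.mem_conductorSet_iff_conductor_dvd χm hdv]
      exact hfac
    rw [hχm, DirichletCharacter.conductor_changeLevel, hχ] at hcd
    exact ha hcd
  · have h1 : V (jj hn 1) = (m / n : ℕ) * ∑ t : (ZMod m)ˣ,
        (fun v : (ZMod n)ˣ => χ⁻¹ (v : ZMod n) * ((v : ZMod n).val : ℂ)) (ZMod.unitsMap hn t) := by
      simp only [hV]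
      rw [mul_sum]
      refine sum_congr rfl fun t _ => ?_
      rw [jj_mul, mul_one, jj_val, hχm1, map_inv, MulChar.inv_apply_eq_inv']
      have h2 : χ (((ZMod.unitsMap hn t)⁻¹ : (ZMod n)ˣ) : ZMod n)
          = (χ ((ZMod.unitsMap hn t : (ZMod n)ˣ) : ZMod n))⁻¹ := by
        apply eq_inv_of_mul_eq_one_left
        rw [← map_mul, ← Units.val_mul, inv_mul_cancel, Units.val_one, map_one]
      rw [h2]
      have h3 : ZMod.castHom hn (ZMod n) (t : ZMod m)
          = ((ZMod.unitsMap hn t : (ZMod n)ˣ) : ZMod n) := by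
        rw [ZMod.unitsMap_val]; rfl
      rw [h3]
      push_cast
      ring
    obtain ⟨κ, hκ, hκs⟩ := sum_unitsMap hn
      (fun v : (ZMod n)ˣ => χ⁻¹ (v : ZMod n) * ((v : ZMod n).val : ℂ))
    rw [h1, hκs]
    have h4 : ∑ v : (ZMod n)ˣ, χ⁻¹ (v : ZMod n) * ((v : ZMod n).val : ℂ)
        = ∑ x : ZMod n, χ⁻¹ x * (x.val : ℂ) := by
      refine Fintype.sum_of_injective (fun v : (ZMod n)ˣ => (v : ZMod n)) Units.val_injective
        _ _ ?_ fun _ => rfl
      intro x hx
      have : ¬ IsUnit x := fun ⟨u, hu⟩ => hx ⟨u, hu⟩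
      rw [MulChar.map_nonunit _ this, zero_mul]
    rw [h4]
    have hodd' : (χ⁻¹).Odd := by
      have h1 : χ (-1) = -1 := hod
      show χ⁻¹ (-1) = -1
      rw [MulChar.inv_apply_eq_inv', h1]
      norm_num
    have h5 := sum_mul_val_ne_zero (isPrimitive_inv hχ) hodd'
    have h6 : ((m / n : ℕ) : ℂ) ≠ 0 := by
      have : m / n ≠ 0 := (Nat.div_pos (Nat.le_of_dvd (Nat.pos_of_ne_zero (NeZero.ne m)) hn)
        (Nat.pos_of_ne_zero (f_ne_zero hn))).ne'
      exact_mod_cast this
    exact mul_ne_zero h6 (mul_ne_zero (by exact_mod_cast hκ) h5)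

end Pool.Agent.Lib.MP_938ce2_ag_sc
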